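import Pool.Agent.U221.TK.Proj

/-!
# The three assertions in terms of points
-/

set_option autoImplicit false
set_option linter.unusedSectionVars false

namespace Pool.Agent.U221.TK

open NumberField IsDedekindDomain Polynomial Finset Pool.Agent.H691R3 Pool.Agent.W223.AK

variable {K : Type} [Field K] [NumberField K]

/-- the radical, not normalised -/
noncomputable def R3' (P : Fin 3 → K) : ℝ :=
  ∑ᶠ (v : HeightOneSpectrum (𝓞 K)) (_ : ¬ (FinitePlace.mk v (P 0) = FinitePlace.mk v (P 1) ∧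
      FinitePlace.mk v (P 1) = FinitePlace.mk v (P 2))), Real.log (Ideal.absNorm v.asIdeal : ℝ)

def img (A B : K[X]) (x : K) : Fin 3 → K := ![A.eval x, B.eval x - A.eval x, -B.eval x]

theorem img_sum (A B : K[X]) (x : K) : img A B x 0 + img A B x 1 + img A B x 2 = 0 := by
  simp [img]

theorem img_coord (A B : K[X]) (x : K) : img A B x 0 / (-img A B x 2) = A.eval x / B.eval x := by
  simp [img]

theorem img_ne {A B : K[X]} {x : K} (h1 : A.eval x ≠ 0) (h2 : B.eval x ≠ 0) (h3 : A.eval x ≠ B.eval x) :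
    img A B x 0 * img A B x 1 * img A B x 2 ≠ 0 := by
  have : B.eval x - A.eval x ≠ 0 := sub_ne_zero.2 (Ne.symm h3)
  simp [img, h1, h2, this]

theorem img_parts {A B : K[X]} {x : K} (h : img A B x 0 * img A B x 1 * img A B x 2 ≠ 0) :
    A.eval x ≠ 0 ∧ B.eval x ≠ 0 ∧ img A B x 1 ≠ 0 ∧ img A B x 2 ≠ 0 := by
  have h0 := left_ne_zero_of_mul (left_ne_zero_of_mul h)
  have h1 := right_ne_zero_of_mul (left_ne_zero_of_mul h)
  have h2 := right_ne_zero_of_mul h
  refine ⟨by simpa [img] using h0, by simpa [img] using h2, h1, h2⟩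

/-- the thin set in terms of the height which is not normalised -/
def ThinU (A B : K[X]) (S : Set (HeightOneSpectrum (𝓞 K))) (δ : ℝ) (Y : ℕ → ℝ) : Set (Fin 3 → K) :=
  {P | ∃ x : K, P = img A B x ∧ (∀ w : InfinitePlace K, w x ≤ δ) ∧ (∀ v ∈ S, FinitePlace.mk v x ≤ δ) ∧
    ∃ i, Y i ≤ H3 P ∧ H3 P ≤ (1 + δ) * Y i}

theorem decides {A B : K[X]} {n : ℕ} (hF : Belyi A B n) (S : Set (HeightOneSpectrum (𝓞 K))) (hS : S.Finite)
    {δ : ℝ} (hδ : 0 < δ) (Y : ℕ → ℝ) (hpos : ∀ i, 0 < Y i)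
    (hYt : Filter.Tendsto Y Filter.atTop Filter.atTop) (r : ℝ) (hYr : ∀ i, Y (i + 1) ≤ r * Y i)
    (h : ∀ ε : ℝ, 0 < ε → ∃ C : ℝ, ∀ P ∈ ThinU A B S δ Y, P 0 + P 1 + P 2 = 0 → P 0 * P 1 * P 2 ≠ 0 →
      H3 P < (1 + ε) * R3' P + C) :
    ∀ ε : ℝ, 0 < ε → ∃ C : ℝ, ∀ P : Fin 3 → K, P 0 + P 1 + P 2 = 0 → P 0 * P 1 * P 2 ≠ 0 →
      H3 P < (1 + ε) * R3' P + C := by
  intro ε hε
  obtain ⟨c, hc0, hc⟩ := height_close (K := K)
  obtain ⟨D, C, hcore⟩ := core hF hS.toFinset hδ Y hpos hYt r hYr hc0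
  -- the small parameter
  obtain ⟨η, hη⟩ : ∃ η : ℝ, η = ε / (1 + (1 + ε) * D) := ⟨_, rfl⟩
  have hD0 : (0 : ℝ) ≤ D := Nat.cast_nonneg D
  have hden : 0 < 1 + (1 + ε) * D := by positivity
  have hη0 : 0 < η := by rw [hη]; positivity
  have hηe : η * (1 + (1 + ε) * D) = ε := by rw [hη, div_mul_cancel₀ _ hden.ne']
  have hηD : 0 < 1 - η * D := by
    have : (1 + ε) * (1 - η * D) = 1 + η := by linear_combination -hηe
    have h1 : 0 < (1 + ε) * (1 - η * D) := by rw [this]; linarith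
    exact pos_of_mul_pos_right h1 (by linarith)
  obtain ⟨C', hC'⟩ := h η hη0
  refine ⟨|C| + c + 1 + (|C| + (1 + η) * |C| + |C'| + c) / (1 - η * D) , fun P hs hP => ?_⟩
  have h0 := left_ne_zero_of_mul (left_ne_zero_of_mul hP)
  have h1 := right_ne_zero_of_mul (left_ne_zero_of_mul hP)
  have h2 := right_ne_zero_of_mul hP
  set x := P 0 / (-P 2) with hx
  have hPx := hc P hs h1 h2
  rw [← hx, abs_le] at hPx
  have hrad : R3' P = R x := rad_eq hs h2
  rw [hrad]
  have hR := R_nonneg x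
  have aC := abs_nonneg C
  have lC := le_abs_self C
  have aC' := abs_nonneg C'
  have lC' := le_abs_self C'
  have hfr : 0 ≤ (|C| + (1 + η) * |C| + |C'| + c) / (1 - η * D) := div_nonneg (by positivity) hηD.le
  have hRε : 0 ≤ (1 + ε) * R x := by positivity
  by_cases hxC : C ≤ H x
  · obtain ⟨z, i, d, hd1, hd2, hzw, hzv, hA, hB, hAB, hwin, hHd, hRd⟩ := hcore x hxC
    obtain ⟨P', hP'⟩ : ∃ P', P' = img A B z := ⟨_, rfl⟩
    have hs' : P' 0 + P' 1 + P' 2 = 0 := by rw [hP']; exact img_sum A B z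
    have hne' : P' 0 * P' 1 * P' 2 ≠ 0 := by rw [hP']; exact img_ne hA hB hAB
    have h1' := right_ne_zero_of_mul (left_ne_zero_of_mul hne')
    have h2' := right_ne_zero_of_mul hne'
    have hco : P' 0 / (-P' 2) = A.eval z / B.eval z := by rw [hP']; exact img_coord A B z
    have hPz := hc P' hs' h1' h2'
    rw [hco] at hPz
    obtain ⟨w1, w2⟩ := hwin (H3 P') hPz
    have hmem : P' ∈ ThinU A B S δ Y := by
      refine ⟨z, hP', hzw, fun v hv => ?_, i, w1, w2⟩
      exact hzv v (hS.mem_toFinset.2 hv)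
    have hmain := hC' P' hmem hs' hne'
    have hrad' : R3' P' = R (A.eval z / B.eval z) := by
      have := rad_eq hs' h2'
      rw [hco] at this
      exact this
    rw [hrad'] at hmain
    rw [abs_le] at hPz hHd
    have hd1' : (1 : ℝ) ≤ d := by exact_mod_cast hd1
    have hd2' : (d : ℝ) ≤ D := by exact_mod_cast hd2
    have hHx := Height.zero_le_logHeight₁ x
    -- the inequality
    have e1 : (d : ℝ) * H x < (1 + η) * (R x + (d - 1) * H x + |C|) + |C'| + c + |C| := by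
      have e2 : (1 + η) * R (A.eval z / B.eval z) ≤ (1 + η) * (R x + (d - 1) * H x + |C|) := by
        refine mul_le_mul_of_nonneg_left ?_ (by linarith)
        linarith
      linarith [hPz.1, hPz.2, hHd.1, hHd.2]
    have e3 : (1 - η * D) * H x ≤ (1 - η * (d - 1)) * H x := by
      refine mul_le_mul_of_nonneg_right ?_ hHx
      nlinarith
    have e4 : (1 - η * D) * H x < (1 + η) * R x + (|C| + (1 + η) * |C| + |C'| + c) := by
      nlinarith
    have e5 : (1 + η) = (1 + ε) * (1 - η * D) := by linear_combination hηe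
    have e6 : H x < (1 + ε) * R x + (|C| + (1 + η) * |C| + |C'| + c) / (1 - η * D) := by
      rw [← sub_pos] at e4 ⊢
      have e7 : (1 - η * D) * ((1 + ε) * R x + (|C| + (1 + η) * |C| + |C'| + c) / (1 - η * D) - H x) =
          (1 + η) * R x + (|C| + (1 + η) * |C| + |C'| + c) - (1 - η * D) * H x := by
        have : (1 - η * D) * ((|C| + (1 + η) * |C| + |C'| + c) / (1 - η * D)) =
            |C| + (1 + η) * |C| + |C'| + c := mul_div_cancel₀ _ hηD.ne'
        linear_combination this - R x * e5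
      rw [← e7] at e4
      exact pos_of_mul_pos_right e4 hηD.le
    linarith [hPx.2]
  · push Not at hxC
    linarith [hPx.2]

theorem weak {A B : K[X]} {n : ℕ} (hF : Belyi A B n) {M : ℝ} (hM : 0 ≤ M) (hMn : (n - 1) * M < n) {C₀ : ℝ}
    (h : ∀ x : K, img A B x 0 * img A B x 1 * img A B x 2 ≠ 0 → H3 (img A B x) ≤ M * R3' (img A B x) + C₀) :
    ∃ C : ℝ, ∀ P : Fin 3 → K, P 0 + P 1 + P 2 = 0 → P 0 * P 1 * P 2 ≠ 0 →
      H3 P ≤ M / (n - (n - 1) * M) * R3' P + C := by
  obtain ⟨c, hc0, hc⟩ := height_close (K := K)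
  obtain ⟨hn, C, hC⟩ := good_of_belyi hF
  have hn' : (1 : ℝ) ≤ n := by exact_mod_cast hn
  have hκ : 0 < (n : ℝ) - (n - 1) * M := by linarith
  refine ⟨|C| + 1 + c + (|C| + c + M * |C| + |C₀|) / (n - (n - 1) * M), fun P hs hP => ?_⟩
  have h1 := right_ne_zero_of_mul (left_ne_zero_of_mul hP)
  have h2 := right_ne_zero_of_mul hP
  set x := P 0 / (-P 2) with hx
  have hPx := hc P hs h1 h2
  rw [← hx, abs_le] at hPx
  have hrad : R3' P = R x := rad_eq hs h2
  rw [hrad]
  have hR := R_nonneg x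
  have aC := abs_nonneg C
  have lC := le_abs_self C
  have aC0 := abs_nonneg C₀
  have lC0 := le_abs_self C₀
  have hfr : 0 ≤ (|C| + c + M * |C| + |C₀|) / (n - (n - 1) * M) := div_nonneg (by positivity) hκ.le
  have hRε : 0 ≤ M / (n - (n - 1) * M) * R x := mul_nonneg (div_nonneg hM hκ.le) hR
  by_cases hxC : |C| + 1 ≤ H x
  · obtain ⟨g1, g2⟩ := hC x (by linarith)
    rw [abs_le] at g1
    have hHx := Height.zero_le_logHeight₁ x
    have hFpos : 0 < H (A.eval x / B.eval x) := by nlinarith [g1.1]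
    have hA : A.eval x ≠ 0 := by
      intro h0
      rw [h0, zero_div, H, Height.logHeight₁_zero] at hFpos
      exact lt_irrefl _ hFpos
    have hB : B.eval x ≠ 0 := by
      intro h0
      rw [h0, div_zero, H, Height.logHeight₁_zero] at hFpos
      exact lt_irrefl _ hFpos
    have hAB : A.eval x ≠ B.eval x := by
      intro h0
      rw [h0, div_self hB, H, Height.logHeight₁_one] at hFpos
      exact lt_irrefl _ hFpos
    have hne' := img_ne hA hB hAB
    have h1' := right_ne_zero_of_mul (left_ne_zero_of_mul hne')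
    have h2' := right_ne_zero_of_mul hne'
    have hPz := hc _ (img_sum A B x) h1' h2'
    rw [img_coord, abs_le] at hPz
    have hrad' : R3' (img A B x) = R (A.eval x / B.eval x) := by
      have := rad_eq (img_sum A B x) h2'
      rw [img_coord] at this
      exact this
    have hmain := h x hne'
    rw [hrad'] at hmain
    have e2 : M * R (A.eval x / B.eval x) ≤ M * (R x + (n - 1) * H x + |C|) :=
      mul_le_mul_of_nonneg_left (by linarith) hM
    have e4 : (n - (n - 1) * M) * H x ≤ M * R x + (|C| + c + M * |C| + |C₀|) := by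
      nlinarith [hPz.1, hPz.2, g1.1, g1.2]
    have e6 : H x ≤ M / (n - (n - 1) * M) * R x + (|C| + c + M * |C| + |C₀|) / (n - (n - 1) * M) := by
      rw [div_mul_eq_mul_div, ← add_div, le_div_iff₀ hκ]
      linarith
    linarith [hPx.2]
  · push Not at hxC
    linarith [hPx.2]

theorem count {A B : K[X]} {n : ℕ} (hF : Belyi A B n) {η : ℝ} (hη : 0 < η) : ∃ C : ℝ, ∀ T : ℝ, 1 ≤ T →
    {P : Fin 3 → K | (∃ x, P = img A B x) ∧ P 0 * P 1 * P 2 ≠ 0 ∧
      H3 P / (Module.finrank ℚ K : ℝ) ≤ Real.log T}.Finite ∧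
    ({P : Fin 3 → K | (∃ x, P = img A B x) ∧ P 0 * P 1 * P 2 ≠ 0 ∧
      H3 P / (Module.finrank ℚ K : ℝ) ≤ Real.log T}.ncard : ℝ) ≤
      C * T ^ (2 * (Module.finrank ℚ K : ℝ) / n + η) := by
  classical
  have hd : 0 < (Module.finrank ℚ K : ℝ) := by exact_mod_cast Module.finrank_pos
  set d : ℝ := (Module.finrank ℚ K : ℝ) with hdd
  have hn' : (1 : ℝ) ≤ n := by exact_mod_cast hF.pos
  have hn0 : (0 : ℝ) < n := by linarith
  obtain ⟨c, hc0, hc⟩ := height_close (K := K)
  obtain ⟨C1, h1⟩ := ht_map hF.pos hF.cop hF.degA hF.degB hF.max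
  obtain ⟨C2, hC2, h2⟩ := count_all (K := K) (η := n * η) (by positivity)
  obtain ⟨E, hE⟩ : ∃ E : ℝ, E = Real.exp ((c + |C1|) / (n * d)) := ⟨_, rfl⟩
  have hE1 : 1 ≤ E := by rw [hE]; exact Real.one_le_exp (by positivity)
  refine ⟨C2 * E ^ (d * 2 + n * η), fun T hT => ?_⟩
  have hT0 : 0 < T := by linarith
  have hTn : 1 ≤ T ^ (1 / (n : ℝ)) := Real.one_le_rpow hT (by positivity)
  have hTE : 1 ≤ T ^ (1 / (n : ℝ)) * E := by nlinarith
  obtain ⟨g1, g2⟩ := h2 _ hTE
  have hsub : {P : Fin 3 → K | (∃ x, P = img A B x) ∧ P 0 * P 1 * P 2 ≠ 0 ∧ H3 P / d ≤ Real.log T} ⊆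
      (img A B) '' {x : K | H x ≤ d * Real.log (T ^ (1 / (n : ℝ)) * E)} := by
    rintro P ⟨⟨x, rfl⟩, hne, hH⟩
    refine ⟨x, ?_, rfl⟩
    rw [Set.mem_ofPred_eq]
    obtain ⟨-, -, p1, p2⟩ := img_parts hne
    have e1 := hc _ (img_sum A B x) p1 p2
    rw [img_coord, abs_le] at e1
    have e2 := h1 x
    rw [abs_le] at e2
    rw [div_le_iff₀ hd] at hH
    have e3 : n * H x ≤ d * Real.log T + c + |C1| := by
      have := le_abs_self C1
      linarith [e1.1, e2.1]
    rw [Real.log_mul (by linarith) (by linarith), hE, Real.log_exp, Real.log_rpow hT0]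
    have e4 : d * (1 / (n : ℝ) * Real.log T + (c + |C1|) / (n * d)) = (d * Real.log T + c + |C1|) / n := by
      field_simp
      ring
    rw [e4, le_div_iff₀ hn0]
    linarith
  have hfin := g1.image (img A B)
  refine ⟨hfin.subset hsub, ?_⟩
  have hcard := (Set.ncard_le_ncard hsub hfin).trans (Set.ncard_image_le g1)
  have hcard' : ({P : Fin 3 → K | (∃ x, P = img A B x) ∧ P 0 * P 1 * P 2 ≠ 0 ∧ H3 P / d ≤ Real.log T}.ncard : ℝ) ≤
      ({x : K | H x ≤ d * Real.log (T ^ (1 / (n : ℝ)) * E)}.ncard : ℝ) := by exact_mod_cast hcard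
  refine hcard'.trans (g2.trans (le_of_eq ?_))
  rw [Real.mul_rpow (by linarith) (by linarith), ← Real.rpow_mul hT0.le]
  have e5 : 1 / (n : ℝ) * (d * 2 + n * η) = 2 * d / n + η := by
    field_simp
  rw [e5]
  ring

end Pool.Agent.U221.TK
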