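import Pool.Agent.H691R3.Places

/-!
# The abc inequality over a number field and rational maps: heights and radicals

`H x` is the logarithmic height of `x` and `R x` the logarithm of the norm of the product of the primes at which one of
`x`, `1 - x` is not a unit, both not normalised.
-/

set_option autoImplicit false
set_option linter.unusedSectionVars false

namespace Pool.Agent.U221.TK

open NumberField IsDedekindDomain Polynomial Finset Pool.Agent.H691R3

variable {K : Type} [Field K] [NumberField K]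

/-- the height, not normalised -/
noncomputable abbrev H (x : K) : ℝ := Height.logHeight₁ x

theorem H_eq (x : K) : H x = ∑ w : InfinitePlace K, (w.mult : ℝ) * Real.posLog (w x) +
    ∑ᶠ v : HeightOneSpectrum (𝓞 K), Real.posLog (fv v x) := by
  rw [H, NumberField.logHeight₁_eq]
  congr 1
  rw [← finsum_comp_equiv (FinitePlace.equivHeightOneSpectrum (K := K)).symm]
  rfl

/-- `x` reduces to `0`, `1` or `∞` modulo `v` -/
def Cu (v : HeightOneSpectrum (𝓞 K)) (x : K) : Prop := ¬ (fv v x = 1 ∧ fv v (1 - x) = 1)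

/-- the logarithm of the norm of the product of these primes -/
noncomputable def R (x : K) : ℝ := ∑ᶠ (v : HeightOneSpectrum (𝓞 K)) (_ : Cu v x), Real.log (Nv v)

theorem cu_finite {x : K} (h0 : x ≠ 0) (h1 : x ≠ 1) : {v : HeightOneSpectrum (𝓞 K) | Cu v x}.Finite := by
  refine ((fv_support_finite h0).union (fv_support_finite (sub_ne_zero.2 (Ne.symm h1)))).subset ?_
  intro v hv
  simp only [Set.mem_ofPred_eq, Set.mem_union] at hv ⊢
  unfold Cu at hv
  tauto

theorem one_lt_Nv (v : HeightOneSpectrum (𝓞 K)) : 1 < Nv v := by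
  have h : 1 < Ideal.absNorm v.asIdeal := HeightOneSpectrum.one_lt_absNorm v
  unfold Nv
  exact_mod_cast h

theorem logNv_pos (v : HeightOneSpectrum (𝓞 K)) : 0 < Real.log (Nv v) := Real.log_pos (one_lt_Nv v)

open Classical in
theorem R_eq_sum {x : K} {W : Finset (HeightOneSpectrum (𝓞 K))} (hW : ∀ v, Cu v x → v ∈ W) :
    R x = ∑ v ∈ W, if Cu v x then Real.log (Nv v) else 0 := by
  unfold R
  have h1 : ∀ v : HeightOneSpectrum (𝓞 K), (∑ᶠ (_ : Cu v x), Real.log (Nv v)) =
      if Cu v x then Real.log (Nv v) else 0 := fun v => finsum_eq_if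
  rw [finsum_congr h1]
  refine finsum_eq_sum_of_support_subset _ ?_
  intro v hv
  rw [Function.mem_support] at hv
  by_contra hc
  exact hv (if_neg fun h => hc (hW v h))

theorem R_nonneg (x : K) : 0 ≤ R x := by
  unfold R
  refine finsum_nonneg fun v => finsum_nonneg fun _ => (logNv_pos v).le

/-- an absolute value smaller than one is at most `1 / N(v)` -/
theorem log_le_of_lt (v : HeightOneSpectrum (𝓞 K)) {t : K} (ht : t ≠ 0) (h : fv v t < 1) :
    Real.log (Nv v) ≤ - Real.log (fv v t) := by
  obtain ⟨n, hn⟩ := fv_zpow v ht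
  have hN := one_lt_Nv v
  have hn0 : n < 0 := by
    by_contra hc
    push Not at hc
    have := one_le_zpow₀ hN.le hc
    rw [← hn] at this
    linarith
  rw [hn, Real.log_zpow]
  have h1 : (n : ℝ) ≤ -1 := by exact_mod_cast (by omega : n ≤ -1)
  nlinarith [logNv_pos v]

/-- sums in the nonarchimedean case -/
theorem na_sum (v : HeightOneSpectrum (𝓞 K)) {ι : Type} (s : Finset ι) (f : ι → K) (B : ℝ) (hB : 0 ≤ B)
    (h : ∀ i ∈ s, fv v (f i) ≤ B) : fv v (∑ i ∈ s, f i) ≤ B := by
  classical
  induction s using Finset.induction_on with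
  | empty => rw [sum_empty, map_zero]; exact hB
  | insert a s ha ih =>
    rw [sum_insert ha]
    refine (fv_na v _ _).trans (max_le (h a (mem_insert_self _ _)) (ih fun i hi => h i (mem_insert_of_mem hi)))

/-- the coefficients are integral at `v` -/
def In (v : HeightOneSpectrum (𝓞 K)) (P : K[X]) : Prop := ∀ i, fv v (P.coeff i) ≤ 1

theorem in_finite (P : K[X]) : {v : HeightOneSpectrum (𝓞 K) | ¬ In v P}.Finite := by
  classical
  have h : ∀ i : ℕ, {v : HeightOneSpectrum (𝓞 K) | 1 < fv v (P.coeff i)}.Finite := by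
    intro i
    by_cases h0 : P.coeff i = 0
    · rw [h0]
      simp only [map_zero]
      refine Set.Finite.subset Set.finite_empty fun v hv => ?_
      simp only [Set.mem_ofPred_eq] at hv
      linarith
    · refine (fv_support_finite h0).subset fun v hv => ?_
      simp only [Set.mem_ofPred_eq] at hv ⊢
      exact hv.ne'
  refine (Set.Finite.biUnion (Finset.finite_toSet (range (P.natDegree + 1))) fun i _ => h i).subset ?_
  intro v hv
  simp only [Set.mem_ofPred_eq] at hv
  unfold In at hv
  push Not at hv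
  obtain ⟨i, hi⟩ := hv
  simp only [Set.mem_iUnion, Set.mem_ofPred_eq, coe_range, Set.mem_Iio]
  refine ⟨i, ?_, hi⟩
  by_contra hc
  rw [coeff_eq_zero_of_natDegree_lt (by omega), map_zero] at hi
  linarith

theorem na_eval (v : HeightOneSpectrum (𝓞 K)) (P : K[X]) (hP : In v P) (x : K) :
    fv v (P.eval x) ≤ max 1 (fv v x) ^ P.natDegree := by
  rw [eval_eq_sum_range]
  refine na_sum v _ _ _ (by positivity) fun i hi => ?_
  rw [mem_range] at hi
  rw [map_mul, map_pow]
  calc fv v (P.coeff i) * fv v x ^ i ≤ 1 * max 1 (fv v x) ^ i := by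
        refine mul_le_mul (hP i) (pow_le_pow_left₀ ((fv v).nonneg x) (le_max_right _ _) i)
          (pow_nonneg ((fv v).nonneg x) i) zero_le_one
    _ ≤ max 1 (fv v x) ^ P.natDegree := by
        rw [one_mul]
        exact pow_le_pow_right₀ (le_max_left _ _) (by omega)

theorem abv_eval (v : AbsoluteValue K ℝ) (P : K[X]) (x : K) :
    v (P.eval x) ≤ (∑ i ∈ range (P.natDegree + 1), v (P.coeff i)) * max 1 (v x) ^ P.natDegree := by
  rw [eval_eq_sum_range]
  refine (v.sum_le _ _).trans ?_
  rw [sum_mul]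
  refine sum_le_sum fun i hi => ?_
  rw [mem_range] at hi
  rw [map_mul, map_pow]
  refine mul_le_mul_of_nonneg_left ?_ (v.nonneg _)
  exact (pow_le_pow_left₀ (v.nonneg x) (le_max_right _ _) i).trans
    (pow_le_pow_right₀ (le_max_left _ _) (by omega))

theorem log_max_one (t : ℝ) (ht : 0 ≤ t) : Real.log (max 1 t) = Real.posLog t := by
  change _ = max 0 (Real.log t)
  rcases le_total t 1 with h | h
  · rw [max_eq_left h, Real.log_one, max_eq_left]
    exact Real.log_nonpos ht h
  · rw [max_eq_right h, max_eq_right (Real.log_nonneg h)]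

/-- upper bound for the values of a polynomial at all finite places -/
theorem fin_bound (P : K[X]) : ∃ c : HeightOneSpectrum (𝓞 K) → ℝ, (∀ v, 0 ≤ c v) ∧ (∀ v, In v P → c v = 0) ∧
    ∀ v x, P.eval x ≠ 0 → Real.log (fv v (P.eval x)) ≤ P.natDegree * Real.posLog (fv v x) + c v := by
  classical
  refine ⟨fun v => if In v P then 0 else
    Real.log (max 1 (∑ i ∈ range (P.natDegree + 1), fv v (P.coeff i))), fun v => ?_, fun v hv => if_pos hv,
    fun v x hx => ?_⟩
  · dsimp only
    split_ifs
    · exact le_rfl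
    · exact Real.log_nonneg (le_max_left _ _)
  · have hpos : 0 < fv v (P.eval x) := (fv v).pos hx
    have hm : 0 < max 1 (fv v x) := lt_max_of_lt_left one_pos
    dsimp only
    split_ifs with h
    · have h1 := Real.log_le_log hpos (na_eval v P h x)
      rw [Real.log_pow, log_max_one _ ((fv v).nonneg _)] at h1
      linarith
    · have h1 : fv v (P.eval x) ≤ max 1 (∑ i ∈ range (P.natDegree + 1), fv v (P.coeff i)) *
          max 1 (fv v x) ^ P.natDegree :=
        (abv_eval (fv v) P x).trans (mul_le_mul_of_nonneg_right (le_max_right _ _) (by positivity))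
      have h2 := Real.log_le_log hpos h1
      rw [Real.log_mul (by positivity) (by positivity), Real.log_pow, log_max_one _ ((fv v).nonneg x)] at h2
      linarith

/-- upper bound for the values of a polynomial at the infinite places -/
theorem inf_bound (P : K[X]) : ∃ c : ℝ, 0 ≤ c ∧ ∀ (w : InfinitePlace K) x, P.eval x ≠ 0 →
    Real.log (w (P.eval x)) ≤ P.natDegree * Real.posLog (w x) + c := by
  classical
  refine ⟨∑ w : InfinitePlace K, Real.log (max 1 (∑ i ∈ range (P.natDegree + 1), w (P.coeff i))),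
    sum_nonneg fun w _ => Real.log_nonneg (le_max_left _ _), fun w x hx => ?_⟩
  have hpos : 0 < w (P.eval x) := InfinitePlace.pos_iff.2 hx
  have hm : 0 < max 1 (w x) := lt_max_of_lt_left one_pos
  have h1 : w (P.eval x) ≤ max 1 (∑ i ∈ range (P.natDegree + 1), w (P.coeff i)) *
      max 1 (w x) ^ P.natDegree :=
    (abv_eval w.1 P x).trans (mul_le_mul_of_nonneg_right (le_max_right _ _) (by positivity))
  have h2 := Real.log_le_log hpos h1
  rw [Real.log_mul (by positivity) (by positivity), Real.log_pow, log_max_one _ (apply_nonneg w x)] at h2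
  have h3 := single_le_sum (f := fun w : InfinitePlace K =>
    Real.log (max 1 (∑ i ∈ range (P.natDegree + 1), w (P.coeff i))))
    (fun w _ => Real.log_nonneg (le_max_left _ _)) (mem_univ w)
  linarith

theorem deg_mul_H_le (n : ℕ) (d : ℕ) (h : d ≤ n) (x : K) : (d : ℝ) * H x ≤ n * H x :=
  mul_le_mul_of_nonneg_right (by exact_mod_cast h) (Height.zero_le_logHeight₁ x)

open Classical in
/-- the sum of the logarithms of the norms of the primes at which the value of a polynomial is not a unit -/
theorem count_zeros (G : K[X]) : ∃ (Bad : Finset (HeightOneSpectrum (𝓞 K))) (C : ℝ), (∀ v, v ∉ Bad → In v G) ∧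
    ∀ x : K, G.eval x ≠ 0 → ∀ W : Finset (HeightOneSpectrum (𝓞 K)),
      (∀ v ∈ W, v ∉ Bad ∧ fv v x = 1 ∧ fv v (G.eval x) ≠ 1) →
      ∑ v ∈ W, Real.log (Nv v) ≤ G.natDegree * H x + C := by
  obtain ⟨c, hc0, hc1, hc2⟩ := fin_bound G
  obtain ⟨c', hc', hc''⟩ := inf_bound G
  set Bad := (in_finite G).toFinset with hBad
  have hIn : ∀ v, v ∉ Bad → In v G := by
    intro v hv
    by_contra h
    exact hv ((in_finite G).mem_toFinset.2 h)
  refine ⟨Bad, ∑ v ∈ Bad, c v + ∑ w : InfinitePlace K, (w.mult : ℝ) * c', hIn, fun x hx W hW => ?_⟩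
  by_cases hx0 : x = 0
  · subst hx0
    have hWe : W = ∅ := by
      rw [Finset.eq_empty_iff_forall_notMem]
      intro v hv
      have := (hW v hv).2.1
      rw [map_zero] at this
      exact zero_ne_one this
    rw [hWe, sum_empty]
    have h1 : 0 ≤ ∑ v ∈ Bad, c v := sum_nonneg fun v _ => hc0 v
    have h2 : 0 ≤ ∑ w : InfinitePlace K, (w.mult : ℝ) * c' := sum_nonneg fun w _ => by positivity
    have h3 : 0 ≤ (G.natDegree : ℝ) * H (0 : K) := mul_nonneg (Nat.cast_nonneg _) (Height.zero_le_logHeight₁ _)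
    linarith
  set s : HeightOneSpectrum (𝓞 K) → ℝ := fun v =>
    G.natDegree * Real.posLog (fv v x) + c v - Real.log (fv v (G.eval x)) with hs
  have hs0 : ∀ v, 0 ≤ s v := fun v => by
    have := hc2 v x hx
    simp only [hs]
    linarith
  set W' : Finset (HeightOneSpectrum (𝓞 K)) := W ∪ Bad ∪ (fv_support_finite hx).toFinset ∪
    (fv_support_finite hx0).toFinset with hW'
  have hsub : W ⊆ W' := fun v hv => by
    rw [hW', mem_union, mem_union, mem_union]
    exact Or.inl (Or.inl (Or.inl hv))
  have hBadsub : Bad ⊆ W' := fun v hv => by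
    rw [hW', mem_union, mem_union, mem_union]
    exact Or.inl (Or.inl (Or.inr hv))
  have h1 : ∑ v ∈ W, Real.log (Nv v) ≤ ∑ v ∈ W', s v := by
    refine le_trans (sum_le_sum fun v hv => ?_) (sum_le_sum_of_subset_of_nonneg hsub fun v _ _ => hs0 v)
    obtain ⟨hb, h2, h3⟩ := hW v hv
    have hin := hIn v hb
    have h4 : fv v (G.eval x) ≤ 1 := by
      have := na_eval v G hin x
      rw [h2, max_self, one_pow] at this
      exact this
    have h5 : fv v (G.eval x) < 1 := lt_of_le_of_ne h4 h3
    have h6 := log_le_of_lt v hx h5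
    simp only [hs]
    have h7 : 0 ≤ (G.natDegree : ℝ) * Real.posLog (fv v x) := mul_nonneg (Nat.cast_nonneg _) Real.posLog_nonneg
    have h8 := hc0 v
    linarith
  have h2 : ∑ v ∈ W', s v = G.natDegree * ∑ v ∈ W', Real.posLog (fv v x) + ∑ v ∈ W', c v -
      ∑ v ∈ W', Real.log (fv v (G.eval x)) := by
    simp only [hs]
    rw [sum_sub_distrib, sum_add_distrib, mul_sum]
  have h3 : ∑ v ∈ W', Real.posLog (fv v x) = ∑ᶠ v : HeightOneSpectrum (𝓞 K), Real.posLog (fv v x) := by
    refine (finsum_eq_sum_of_support_subset _ ?_).symm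
    intro v hv
    rw [Function.mem_support] at hv
    have : fv v x ≠ 1 := by
      intro h
      rw [h, Real.posLog_one] at hv
      exact hv rfl
    rw [hW', coe_union]
    exact Or.inr ((fv_support_finite hx0).mem_toFinset.2 this)
  have h4 : ∑ v ∈ W', c v = ∑ v ∈ Bad, c v := by
    refine (sum_subset hBadsub fun v _ hv => hc1 v (hIn v hv)).symm
  have h5 : ∑ v ∈ W', Real.log (fv v (G.eval x)) =
      ∑ᶠ v : HeightOneSpectrum (𝓞 K), Real.log (fv v (G.eval x)) := by
    refine (finsum_eq_sum_of_support_subset _ ?_).symm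
    intro v hv
    rw [Function.mem_support] at hv
    have : fv v (G.eval x) ≠ 1 := by
      intro h
      rw [h, Real.log_one] at hv
      exact hv rfl
    rw [hW', coe_union, coe_union]
    exact Or.inl (Or.inr ((fv_support_finite hx).mem_toFinset.2 this))
  have h6 := log_product_formula hx
  have h7 : ∑ w : InfinitePlace K, (w.mult : ℝ) * Real.log (w (G.eval x)) ≤
      G.natDegree * ∑ w : InfinitePlace K, (w.mult : ℝ) * Real.posLog (w x) +
        ∑ w : InfinitePlace K, (w.mult : ℝ) * c' := by
    rw [mul_sum, ← sum_add_distrib]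
    refine sum_le_sum fun w _ => ?_
    have := mul_le_mul_of_nonneg_left (hc'' w x hx) (Nat.cast_nonneg (α := ℝ) w.mult)
    linarith
  have h8 := H_eq x
  rw [h2, h3, h4, h5] at h1
  have h9 : (G.natDegree : ℝ) * H x = G.natDegree * ∑ w : InfinitePlace K, (w.mult : ℝ) * Real.posLog (w x) +
      G.natDegree * ∑ᶠ v : HeightOneSpectrum (𝓞 K), Real.posLog (fv v x) := by
    rw [h8, mul_add]
  rw [h9]
  linarith

open Classical in
/-- **The radical of the image of a point under a rational map** -/
theorem rad_map {A B G : K[X]} {k n : ℕ} (hn : G.natDegree + 1 ≤ n)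
    (hdvd : A * B * (A - B) ∣ (X * (X - 1) * G) ^ k) :
    ∃ C : ℝ, ∀ x : K, x ≠ 0 → x ≠ 1 → G.eval x ≠ 0 →
      R (A.eval x / B.eval x) ≤ R x + (n - 1) * H x + C := by
  obtain ⟨E, hE⟩ := hdvd
  obtain ⟨Bad, C, hBad, hC⟩ := count_zeros G
  set Bad' : Finset (HeightOneSpectrum (𝓞 K)) := Bad ∪ (in_finite A).toFinset ∪ (in_finite B).toFinset ∪
    (in_finite (A - B)).toFinset ∪ (in_finite E).toFinset with hBad'
  refine ⟨C + ∑ v ∈ Bad', Real.log (Nv v), fun x h0 h1 hG => ?_⟩
  have hev : A.eval x * B.eval x * (A.eval x - B.eval x) * E.eval x = (x * (x - 1) * G.eval x) ^ k := by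
    have := congrArg (Polynomial.eval x) hE
    simp only [eval_mul, eval_pow, eval_sub, eval_X, eval_one] at this
    exact this.symm
  have hne : (x * (x - 1) * G.eval x) ^ k ≠ 0 := pow_ne_zero _ (mul_ne_zero (mul_ne_zero h0 (sub_ne_zero.2 h1)) hG)
  rw [← hev] at hne
  have hA : A.eval x ≠ 0 := fun h => hne (by rw [h]; ring)
  have hB : B.eval x ≠ 0 := fun h => hne (by rw [h]; ring)
  have hAB : A.eval x - B.eval x ≠ 0 := fun h => hne (by rw [h]; ring)
  set F := A.eval x / B.eval x with hF
  have hF0 : F ≠ 0 := div_ne_zero hA hB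
  have hF1 : F ≠ 1 := by
    intro h
    rw [hF, div_eq_one_iff_eq hB] at h
    exact hAB (sub_eq_zero.2 h)
  set W : Finset (HeightOneSpectrum (𝓞 K)) := (cu_finite h0 h1).toFinset ∪ (cu_finite hF0 hF1).toFinset with hWd
  have hWx : ∀ v, Cu v x → v ∈ W := fun v hv => by
    rw [hWd, mem_union]; exact Or.inl ((cu_finite h0 h1).mem_toFinset.2 hv)
  have hWF : ∀ v, Cu v F → v ∈ W := fun v hv => by
    rw [hWd, mem_union]; exact Or.inr ((cu_finite hF0 hF1).mem_toFinset.2 hv)
  rw [R_eq_sum hWx, R_eq_sum hWF]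
  have key : ∀ v, v ∉ Bad' → Cu v F → ¬ Cu v x → v ∉ Bad ∧ fv v x = 1 ∧ fv v (G.eval x) ≠ 1 := by
    intro v hv hvF hvx
    have hvx' : fv v x = 1 ∧ fv v (1 - x) = 1 := by
      unfold Cu at hvx; tauto
    have hnot : v ∉ Bad ∧ In v A ∧ In v B ∧ In v (A - B) ∧ In v E := by
      rw [hBad'] at hv
      simp only [mem_union, Set.Finite.mem_toFinset, Set.mem_ofPred_eq, not_or, not_not] at hv
      tauto
    obtain ⟨hb, hIA, hIB, hIAB, hIE⟩ := hnot
    refine ⟨hb, hvx'.1, fun hG1 => hvF ?_⟩
    have hm : max 1 (fv v x) = 1 := by rw [hvx'.1, max_self]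
    have eA : fv v (A.eval x) ≤ 1 := by
      have := na_eval v A hIA x
      rwa [hm, one_pow] at this
    have eB : fv v (B.eval x) ≤ 1 := by
      have := na_eval v B hIB x
      rwa [hm, one_pow] at this
    have eAB : fv v (A.eval x - B.eval x) ≤ 1 := by
      have := na_eval v (A - B) hIAB x
      rw [hm, one_pow, eval_sub] at this
      exact this
    have eE : fv v (E.eval x) ≤ 1 := by
      have := na_eval v E hIE x
      rwa [hm, one_pow] at this
    have hx1 : fv v (x - 1) = 1 := by
      rw [← hvx'.2, ← map_neg_eq_map (fv v) (1 - x), neg_sub]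
    have hprod : fv v (A.eval x) * fv v (B.eval x) * fv v (A.eval x - B.eval x) * fv v (E.eval x) = 1 := by
      have := congrArg (fv v) hev
      rw [map_mul, map_mul, map_mul, map_pow, map_mul, map_mul, hvx'.1, hx1, hG1] at this
      simpa using this
    have nA := (fv v).nonneg (A.eval x)
    have nB := (fv v).nonneg (B.eval x)
    have nAB := (fv v).nonneg (A.eval x - B.eval x)
    have nE := (fv v).nonneg (E.eval x)
    have p1 : fv v (A.eval x) * fv v (B.eval x) ≤ 1 := mul_le_one₀ eA nB eB
    have p2 : fv v (A.eval x) * fv v (B.eval x) * fv v (A.eval x - B.eval x) ≤ 1 := mul_le_one₀ p1 nAB eAB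
    have hABC : fv v (A.eval x) * fv v (B.eval x) * fv v (A.eval x - B.eval x) = 1 := by
      refine le_antisymm p2 ?_
      have := mul_le_of_le_one_right (mul_nonneg (mul_nonneg nA nB) nAB) eE
      rw [hprod] at this
      exact this
    have hAB1 : fv v (A.eval x) * fv v (B.eval x) = 1 := by
      refine le_antisymm p1 ?_
      have := mul_le_of_le_one_right (mul_nonneg nA nB) eAB
      rw [hABC] at this
      exact this
    have hABs : fv v (A.eval x - B.eval x) = 1 := by
      rw [hAB1, one_mul] at hABC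
      exact hABC
    have hA1 : fv v (A.eval x) = 1 := by
      refine le_antisymm eA ?_
      have := mul_le_of_le_one_right nA eB
      rw [hAB1] at this
      exact this
    have hB1 : fv v (B.eval x) = 1 := by
      rw [hA1, one_mul] at hAB1
      exact hAB1
    refine ⟨by rw [hF, map_div₀, hA1, hB1, div_one], ?_⟩
    have e : 1 - F = -((A.eval x - B.eval x) / B.eval x) := by
      rw [hF]
      field_simp
      ring
    rw [e, map_neg_eq_map, map_div₀, hABs, hB1, div_one]
  have hcount := hC x hG (W.filter fun v => v ∉ Bad' ∧ Cu v F ∧ ¬ Cu v x) (fun v hv => by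
    rw [mem_filter] at hv
    exact key v hv.2.1 hv.2.2.1 hv.2.2.2)
  rw [sum_filter] at hcount
  have hbadsum : ∑ v ∈ W, (if v ∈ Bad' then Real.log (Nv v) else 0) ≤ ∑ v ∈ Bad', Real.log (Nv v) := by
    rw [← sum_filter]
    refine sum_le_sum_of_subset_of_nonneg (fun v hv => (mem_filter.1 hv).2) fun v _ _ => (logNv_pos v).le
  have hpt : ∑ v ∈ W, (if Cu v F then Real.log (Nv v) else 0) ≤
      ∑ v ∈ W, (if Cu v x then Real.log (Nv v) else 0) +
      ∑ v ∈ W, (if v ∉ Bad' ∧ Cu v F ∧ ¬ Cu v x then Real.log (Nv v) else 0) +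
      ∑ v ∈ W, (if v ∈ Bad' then Real.log (Nv v) else 0) := by
    rw [← sum_add_distrib, ← sum_add_distrib]
    refine sum_le_sum fun v _ => ?_
    have hp := (logNv_pos v).le
    by_cases c1 : Cu v F <;> by_cases c2 : Cu v x <;> by_cases c3 : v ∈ Bad' <;> simp [c1, c2, c3] <;> linarith
  have hdeg : (G.natDegree : ℝ) * H x ≤ (n - 1) * H x := by
    refine mul_le_mul_of_nonneg_right ?_ (Height.zero_le_logHeight₁ x)
    have : ((G.natDegree + 1 : ℕ) : ℝ) ≤ n := by exact_mod_cast hn
    push_cast at this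
    linarith
  linarith

end Pool.Agent.U221.TK
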