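import Pool.Agent.U221.TK.Main

/-!
# The core theorem
-/

set_option autoImplicit false
set_option linter.unusedSectionVars false

namespace Pool.Agent.U221.TK

open NumberField IsDedekindDomain Polynomial Finset Pool.Agent.H691R3

variable {K : Type} [Field K] [NumberField K]

theorem good_uniform (L : Finset ((K → K) × ℕ)) (h : ∀ p ∈ L, Good p.1 p.2) : ∃ C : ℝ, 0 ≤ C ∧
    ∀ p ∈ L, ∀ x : K, C ≤ H x → |H (p.1 x) - p.2 * H x| ≤ C ∧ R (p.1 x) ≤ R x + (p.2 - 1) * H x + C := by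
  classical
  induction L using Finset.induction_on with
  | empty => exact ⟨0, le_rfl, fun p hp => absurd hp (notMem_empty p)⟩
  | insert a L ha ih =>
    obtain ⟨C1, h0, h1⟩ := ih fun p hp => h p (mem_insert_of_mem hp)
    obtain ⟨_, C2, h2⟩ := h a (mem_insert_self _ _)
    refine ⟨C1 + |C2|, by positivity, fun p hp x hx => ?_⟩
    have a2 := abs_nonneg C2
    have l2 := le_abs_self C2
    rw [mem_insert] at hp
    rcases hp with rfl | hp
    · obtain ⟨g1, g2⟩ := h2 x (by linarith)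
      exact ⟨by linarith, by linarith⟩
    · obtain ⟨g1, g2⟩ := h1 p hp x (by linarith)
      exact ⟨by linarith, by linarith⟩

theorem merge_all (l : Finset (AbsoluteValue K ℝ)) {ε : ℝ} (hε : 0 < ε) :
    ∃ ε' : ℝ, 0 < ε' ∧ ∀ v ∈ l, ∀ x, near v ε' x → v (Q x) < ε := by
  classical
  have h3 : ∀ᶠ ε' in nhdsWithin (0 : ℝ) (Set.Ioi 0), ∀ v ∈ l, ∀ x, near v ε' x → v (Q x) < ε := by
    rw [Filter.eventually_all_finset]
    intro v _
    obtain ⟨e, he, hE⟩ := merge v hε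
    filter_upwards [Ioo_mem_nhdsGT he] with e' he' x hx
    exact hE x (near_mono he'.2.le hx)
  obtain ⟨e, he1, he2⟩ := (h3.and self_mem_nhdsWithin).exists
  exact ⟨e, he2, he1⟩

/-- **The core theorem.** -/
theorem core {A B : K[X]} {n : ℕ} (hF : Belyi A B n) (S : Finset (HeightOneSpectrum (𝓞 K))) {δ : ℝ} (hδ : 0 < δ)
    (Y : ℕ → ℝ) (hpos : ∀ i, 0 < Y i) (hYt : Filter.Tendsto Y Filter.atTop Filter.atTop) (r : ℝ)
    (hYr : ∀ i, Y (i + 1) ≤ r * Y i) {c0 : ℝ} (hc0 : 0 ≤ c0) :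
    ∃ (D : ℕ) (C : ℝ), ∀ x : K, C ≤ H x → ∃ (z : K) (i d : ℕ), 1 ≤ d ∧ d ≤ D ∧
      (∀ w : InfinitePlace K, w z ≤ δ) ∧ (∀ v ∈ S, fv v z ≤ δ) ∧
      A.eval z ≠ 0 ∧ B.eval z ≠ 0 ∧ A.eval z ≠ B.eval z ∧
      (∀ h : ℝ, |h - H (A.eval z / B.eval z)| ≤ c0 → Y i ≤ h ∧ h ≤ (1 + δ) * Y i) ∧
      |H (A.eval z / B.eval z) - d * H x| ≤ C ∧
      R (A.eval z / B.eval z) ≤ R x + (d - 1) * H x + C := by
  classical
  set Sall : Finset (AbsoluteValue K ℝ) := (univ.image fun w : InfinitePlace K => w.1) ∪ S.image fv with hSall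
  have hsing : ∀ v ∈ Sall, Single v := by
    intro v hv
    rw [hSall, mem_union, mem_image, mem_image] at hv
    rcases hv with ⟨w, _, rfl⟩ | ⟨v, _, rfl⟩
    · exact single_arch w
    · exact single_fin v
  have hδ1 : 0 < min δ 1 := lt_min hδ one_pos
  obtain ⟨ε1, hε1, hmerge⟩ := merge_all Sall hδ1
  obtain ⟨L, hL1, hL2⟩ := multi Sall hsing ε1 hε1
  -- the first step
  set L' : Finset ((K → K) × ℕ) := L.image fun p => ((fun x => Q (p.1 x)), 4 * p.2) with hL'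
  have hgood' : ∀ p ∈ L', Good p.1 p.2 := by
    intro q hq
    rw [hL', mem_image] at hq
    obtain ⟨p, hp, rfl⟩ := hq
    exact good_comp (f := p.1) (g := Q) (hL1 p hp).1 good_Q
  obtain ⟨C1, hC1, h1⟩ := good_uniform L' hgood'
  have hFg := good_of_belyi hF
  obtain ⟨hn, C3, h3⟩ := id hFg
  obtain ⟨T0, M1, hwin⟩ := window Y hpos hYt r hYr hδ (c := c0 + |C3|) (by positivity)
  -- the composites
  set L'' : Finset ((K → K) × ℕ) := (L ×ˢ Icc 1 M1).image fun q =>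
    ((fun x => A.eval ((Q (q.1.1 x)) ^ q.2) / B.eval ((Q (q.1.1 x)) ^ q.2)), n * (q.2 * (4 * q.1.2))) with hL''
  have hgood'' : ∀ p ∈ L'', Good p.1 p.2 := by
    intro q hq
    rw [hL'', mem_image] at hq
    obtain ⟨p, hp, rfl⟩ := hq
    rw [mem_product, mem_Icc] at hp
    have g1 : Good (fun x => Q (p.1.1 x)) (4 * p.1.2) := good_comp (f := p.1.1) (g := Q) (hL1 p.1 hp.1).1 good_Q
    have g2 : Good (fun x => (Q (p.1.1 x)) ^ p.2) (p.2 * (4 * p.1.2)) :=
      good_comp (f := fun x => Q (p.1.1 x)) (g := fun y : K => y ^ p.2) g1 (word_pow hp.2.1).1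
    exact good_comp (f := fun x => (Q (p.1.1 x)) ^ p.2) (g := fun y : K => A.eval y / B.eval y) g2 hFg
  obtain ⟨C4, hC4, h4⟩ := good_uniform L'' hgood''
  refine ⟨∑ q ∈ L'', q.2, C1 + |C3| + |T0| + C4 + 1, fun x hx => ?_⟩
  have a3 := abs_nonneg C3
  have l3 := le_abs_self C3
  have aT := abs_nonneg T0
  have lT := le_abs_self T0
  obtain ⟨p, hp, hnear⟩ := hL2 x
  obtain ⟨z0, hz0⟩ : ∃ z0, z0 = Q (p.1 x) := ⟨_, rfl⟩
  have hz0v : ∀ v ∈ Sall, v z0 < min δ 1 := fun v hv => by rw [hz0]; exact hmerge v hv _ (hnear v hv)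
  have hz0H : H x + C1 ≤ H z0 + C1 := by
    obtain ⟨g1, -⟩ := h1 _ (mem_image_of_mem _ hp) x (by linarith)
    simp only at g1
    rw [← hz0, abs_le] at g1
    have hp1 : (1 : ℝ) ≤ p.2 := by exact_mod_cast (hL1 p hp).1.1
    have hH := Height.zero_le_logHeight₁ x
    push_cast at g1
    nlinarith [g1.1]
  have hz0H' : H x ≤ H z0 := by linarith
  have hn' : (1 : ℝ) ≤ n := by exact_mod_cast hn
  have ht : T0 ≤ n * H z0 := by nlinarith
  obtain ⟨i, m, hm1, hm2, hwin'⟩ := hwin _ ht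
  have hm' : (1 : ℝ) ≤ m := by exact_mod_cast hm1
  have hHz : H (z0 ^ m) = m * H z0 := Height.logHeight₁_pow z0 m
  have hHz' : H z0 ≤ H (z0 ^ m) := by
    rw [hHz]
    have := Height.zero_le_logHeight₁ z0
    nlinarith
  obtain ⟨g3, -⟩ := h3 (z0 ^ m) (by linarith)
  have hmem : ((fun x => A.eval ((Q (p.1 x)) ^ m) / B.eval ((Q (p.1 x)) ^ m)), n * (m * (4 * p.2))) ∈ L'' := by
    rw [hL'', mem_image]
    exact ⟨(p, m), by rw [mem_product, mem_Icc]; exact ⟨hp, hm1, hm2⟩, rfl⟩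
  obtain ⟨g4, g5⟩ := h4 _ hmem x (by linarith)
  simp only at g4 g5
  rw [← hz0] at g4 g5
  have hFz : 0 < H (A.eval (z0 ^ m) / B.eval (z0 ^ m)) := by
    have := abs_le.1 g3
    nlinarith [this.1]
  have hvz : ∀ v ∈ Sall, v (z0 ^ m) ≤ δ := by
    intro v hv
    have h5 := hz0v v hv
    rw [map_pow]
    calc v z0 ^ m ≤ v z0 ^ 1 :=
          pow_le_pow_of_le_one (v.nonneg _) (h5.le.trans (min_le_right _ _)) hm1
      _ = v z0 := pow_one _
      _ ≤ δ := h5.le.trans (min_le_left _ _)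
  refine ⟨z0 ^ m, i, n * (m * (4 * p.2)), ?_, ?_, ?_, ?_, ?_, ?_, ?_, ?_, ?_, ?_⟩
  · have := (hL1 p hp).1.1
    exact Nat.mul_pos hn (Nat.mul_pos hm1 (by omega))
  · exact single_le_sum (f := fun q : (K → K) × ℕ => q.2) (fun _ _ => Nat.zero_le _) hmem
  · intro w
    exact hvz w.1 (by
      rw [hSall, mem_union, mem_image]
      exact Or.inl ⟨w, mem_univ _, rfl⟩)
  · intro v hv
    exact hvz (fv v) (by
      rw [hSall, mem_union, mem_image, mem_image]
      exact Or.inr ⟨v, hv, rfl⟩)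
  · intro h0
    rw [h0, zero_div, H, Height.logHeight₁_zero] at hFz
    exact lt_irrefl _ hFz
  · intro h0
    rw [h0, div_zero, H, Height.logHeight₁_zero] at hFz
    exact lt_irrefl _ hFz
  · intro h0
    by_cases hB : B.eval (z0 ^ m) = 0
    · rw [hB, div_zero, H, Height.logHeight₁_zero] at hFz
      exact lt_irrefl _ hFz
    · rw [h0, div_self hB, H, Height.logHeight₁_one] at hFz
      exact lt_irrefl _ hFz
  · intro h hh
    refine hwin' h ?_
    have e : h - m * (n * H z0) = (h - H (A.eval (z0 ^ m) / B.eval (z0 ^ m))) +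
        (H (A.eval (z0 ^ m) / B.eval (z0 ^ m)) - n * H (z0 ^ m)) := by
      rw [hHz]; ring
    rw [e]
    refine (abs_add_le _ _).trans ?_
    linarith
  · push_cast at g4 ⊢
    linarith
  · push_cast at g5 ⊢
    linarith

end Pool.Agent.U221.TK
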