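import Pool.Agent.U221.TK.Rad

/-!
# Heights of the values of rational functions
-/

set_option autoImplicit false
set_option linter.unusedSectionVars false

namespace Pool.Agent.U221.TK

open NumberField IsDedekindDomain Polynomial Finset Pool.Agent.H691R3

section alg
variable {F : Type} [Field F]

theorem comb_aux (A B : F[X]) (hc : IsCoprime A B) {n M : ℕ} (hn : 1 ≤ n) (hA : A.natDegree = n)
    (hB : B.natDegree ≤ n) (hM : n ≤ M) : ∃ U V : F[X], U.natDegree ≤ M ∧ V.natDegree ≤ M ∧
      U * A + V * B = X ^ (M + n) := by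
  obtain ⟨u, v, huv⟩ := hc
  have hA0 : A ≠ 0 := by
    rintro rfl
    rw [natDegree_zero] at hA
    omega
  set r := (X ^ (M + n) * v) % A with hr
  set q := (X ^ (M + n) * v) / A with hq
  have hdiv : A * q + r = X ^ (M + n) * v := EuclideanDomain.div_add_mod _ _
  have hrd : r.natDegree < n := by
    have h1 : r.degree < A.degree := Polynomial.degree_mod_lt _ hA0
    by_cases h0 : r = 0
    · rw [h0, natDegree_zero]; omega
    · rw [← hA]
      exact natDegree_lt_natDegree h0 h1
  refine ⟨X ^ (M + n) * u + q * B, r, ?_, by omega, ?_⟩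
  · have h2 : (X ^ (M + n) * u + q * B) * A = X ^ (M + n) - r * B := by
      linear_combination X ^ (M + n) * huv + B * hdiv
    by_cases h0 : X ^ (M + n) * u + q * B = 0
    · rw [h0, natDegree_zero]; omega
    · have h3 : ((X ^ (M + n) * u + q * B) * A).natDegree ≤ M + n := by
        rw [h2]
        refine (natDegree_sub_le _ _).trans (max_le (by rw [natDegree_X_pow]) ?_)
        refine natDegree_mul_le.trans ?_
        omega
      rw [natDegree_mul h0 hA0] at h3
      omega
  · linear_combination X ^ (M + n) * huv + B * hdiv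

theorem comb (A B : F[X]) (hc : IsCoprime A B) {n M : ℕ} (hn : 1 ≤ n) (hA : A.natDegree ≤ n)
    (hB : B.natDegree ≤ n) (hmax : A.natDegree = n ∨ B.natDegree = n) (hM : n ≤ M) :
    ∃ U V : F[X], U.natDegree ≤ M ∧ V.natDegree ≤ M ∧ U * A + V * B = X ^ (M + n) := by
  rcases hmax with h | h
  · exact comb_aux A B hc hn h hB hM
  · obtain ⟨U, V, h1, h2, h3⟩ := comb_aux B A hc.symm hn h hA hM
    exact ⟨V, U, h2, h1, by rw [add_comm]; exact h3⟩

theorem eval_hom (P : F[X]) {m : ℕ} (h : P.natDegree ≤ m) (x : F) :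
    (P.homogenize m).eval ![x, 1] = P.eval x := by
  have := eval₂_homogenize_of_eq_one h (RingHom.id F) ![x, 1] (by simp)
  rw [MvPolynomial.eval₂_id] at this
  rw [this]
  simp [Polynomial.eval₂_id]

end alg

variable {K : Type} [Field K] [NumberField K]

theorem ht_map {A B : K[X]} {n : ℕ} (hn : 1 ≤ n) (hc : IsCoprime A B) (hA : A.natDegree ≤ n)
    (hB : B.natDegree ≤ n) (hmax : A.natDegree = n ∨ B.natDegree = n) :
    ∃ C : ℝ, ∀ x : K, |H (A.eval x / B.eval x) - n * H x| ≤ C := by
  obtain ⟨u, v, huv⟩ := id hc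
  obtain ⟨M, hM⟩ : ∃ M, M = n + u.natDegree + v.natDegree := ⟨_, rfl⟩
  obtain ⟨U, V, hU, hV, hUV⟩ := comb A B hc hn hA hB hmax (M := M) (by omega)
  set p : Fin 2 → MvPolynomial (Fin 2) K := ![A.homogenize n, B.homogenize n] with hp
  have hph : ∀ i, (p i).IsHomogeneous n := by
    intro i
    fin_cases i <;> simp [hp]
  set q : Fin 2 × Fin 2 → MvPolynomial (Fin 2) K := fun a =>
    (![![U, V], ![u, v]] a.1 a.2).homogenize M with hq
  have hqh : ∀ a, (q a).IsHomogeneous M := fun a => isHomogeneous_homogenize _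
  obtain ⟨C1, h1⟩ := Height.logHeight_eval_le' hph
  obtain ⟨C2, h2⟩ := Height.logHeight_eval_ge' (K := K) (N := n) hqh
  have hpe : ∀ x : K, (fun j => (p j).eval ![x, 1]) = ![A.eval x, B.eval x] := by
    intro x
    funext j
    fin_cases j
    · simp only [hp, Fin.zero_eta, Matrix.cons_val_zero]
      exact eval_hom A hA x
    · simp only [hp, Fin.mk_one, Matrix.cons_val_one, Matrix.cons_val_fin_one]
      exact eval_hom B hB x
  refine ⟨|C1| + |C2|, fun x => ?_⟩
  have e1 : H (A.eval x / B.eval x) = Height.logHeight ![A.eval x, B.eval x] :=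
    Height.logHeight₁_div_eq_logHeight _ _
  have e2 : H x = Height.logHeight ![x, 1] := Height.logHeight₁_eq_logHeight x
  have g1 := h1 ![x, 1]
  rw [hpe, ← e1, ← e2] at g1
  have g2 := h2 p (x := ![x, 1]) (by
    intro k
    have hx : ∀ j, (p j).eval ![x, 1] = ![A.eval x, B.eval x] j := fun j => congrFun (hpe x) j
    simp only [hx, Fin.sum_univ_two]
    fin_cases k
    · simp only [hq, Fin.zero_eta, Matrix.cons_val_zero, Matrix.cons_val_one, Matrix.cons_val_fin_one]
      rw [eval_hom U hU, eval_hom V hV]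
      have := congrArg (Polynomial.eval x) hUV
      simpa using this
    · simp only [hq, Fin.mk_one, Matrix.cons_val_zero, Matrix.cons_val_one, Matrix.cons_val_fin_one]
      rw [eval_hom u (by omega), eval_hom v (by omega)]
      have := congrArg (Polynomial.eval x) huv
      simpa using this)
  rw [hpe, ← e1, ← e2] at g2
  rw [abs_le]
  constructor
  · have := neg_abs_le C2
    have := abs_nonneg C1
    linarith
  · have := le_abs_self C1
    have := abs_nonneg C2
    linarith

/-- the rational function `A / B` of degree `n` is unramified outside of `0`, `1`, `∞`, and the points over `0`, `1`, `∞`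
are `0`, `1`, `∞` and the zeros of a polynomial `G` of degree at most `n - 1` -/
structure Belyi (A B : K[X]) (n : ℕ) : Prop where
  pos : 1 ≤ n
  cop : IsCoprime A B
  degA : A.natDegree ≤ n
  degB : B.natDegree ≤ n
  max : A.natDegree = n ∨ B.natDegree = n
  zeros : ∃ (G : K[X]) (k : ℕ), G ≠ 0 ∧ G.natDegree + 1 ≤ n ∧ A * B * (A - B) ∣ (X * (X - 1) * G) ^ k

/-- a map which changes heights and radicals like a Belyi map of degree `n` -/
def Good (f : K → K) (n : ℕ) : Prop :=
  1 ≤ n ∧ ∃ C : ℝ, ∀ x : K, C ≤ H x → |H (f x) - n * H x| ≤ C ∧ R (f x) ≤ R x + (n - 1) * H x + C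

theorem good_of_belyi {A B : K[X]} {n : ℕ} (h : Belyi A B n) : Good (fun x : K => A.eval x / B.eval x) n := by
  classical
  obtain ⟨C1, h1⟩ := ht_map h.pos h.cop h.degA h.degB h.max
  obtain ⟨G, k, hG0, hG, hd⟩ := h.zeros
  obtain ⟨C2, h2⟩ := rad_map hG hd
  refine ⟨h.pos, |C1| + |C2| + 1 + ∑ z ∈ G.roots.toFinset, H z, fun x hx => ⟨?_, ?_⟩⟩
  · have hs : 0 ≤ ∑ z ∈ G.roots.toFinset, H z := sum_nonneg fun z _ => Height.zero_le_logHeight₁ z
    refine (h1 x).trans ?_
    have := le_abs_self C1
    have := abs_nonneg C2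
    linarith
  · have hs : 0 ≤ ∑ z ∈ G.roots.toFinset, H z := sum_nonneg fun z _ => Height.zero_le_logHeight₁ z
    have a1 := abs_nonneg C1
    have a2 := abs_nonneg C2
    have hx0 : x ≠ 0 := by
      rintro rfl
      rw [H, Height.logHeight₁_zero] at hx
      linarith
    have hx1 : x ≠ 1 := by
      rintro rfl
      rw [H, Height.logHeight₁_one] at hx
      linarith
    have hGx : G.eval x ≠ 0 := by
      intro h0
      have hm : x ∈ G.roots.toFinset := by
        rw [Multiset.mem_toFinset, mem_roots hG0]; exact h0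
      have := single_le_sum (f := fun z : K => H z) (fun z _ => Height.zero_le_logHeight₁ z) hm
      linarith
    refine (h2 x hx0 hx1 hGx).trans ?_
    have := le_abs_self C2
    linarith

theorem good_id : Good (fun x : K => x) 1 := by
  refine ⟨le_rfl, 0, fun x _ => ⟨?_, ?_⟩⟩
  · simp
  · simp

theorem good_comp {f g : K → K} {m n : ℕ} (hf : Good f m) (hg : Good g n) : Good (fun x => g (f x)) (n * m) := by
  obtain ⟨hm, C1, h1⟩ := hf
  obtain ⟨hn, C2, h2⟩ := hg
  refine ⟨Nat.mul_pos hn hm, |C1| + |C2| + n * |C1| + |C2|, fun x hx => ?_⟩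
  have a1 := abs_nonneg C1
  have a2 := abs_nonneg C2
  have l1 := le_abs_self C1
  have l2 := le_abs_self C2
  have hn' : (1 : ℝ) ≤ n := by exact_mod_cast hn
  have hm' : (1 : ℝ) ≤ m := by exact_mod_cast hm
  have hna : |C1| ≤ n * |C1| := le_mul_of_one_le_left a1 hn'
  have hH := Height.zero_le_logHeight₁ x
  obtain ⟨g1, g2⟩ := h1 x (by linarith)
  rw [abs_le] at g1
  have hmH : H x ≤ m * H x := le_mul_of_one_le_left hH hm'
  obtain ⟨g3, g4⟩ := h2 (f x) (by linarith [g1.1])
  rw [abs_le] at g3
  have hfx : |(n : ℝ) * (H (f x) - m * H x)| ≤ n * |C1| := by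
    rw [abs_mul, abs_of_nonneg (by linarith : (0 : ℝ) ≤ n)]
    refine mul_le_mul_of_nonneg_left ?_ (by linarith)
    rw [abs_le]
    constructor <;> linarith [g1.1, g1.2]
  rw [abs_le] at hfx
  constructor
  · rw [abs_le]
    push_cast
    constructor <;> nlinarith [g3.1, g3.2, hfx.1, hfx.2]
  · push_cast
    have h5 : ((n : ℝ) - 1) * H (f x) ≤ (n - 1) * (m * H x + |C1|) :=
      mul_le_mul_of_nonneg_left (by linarith [g1.2]) (by linarith)
    nlinarith [g4, g2, h5]

end Pool.Agent.U221.TK
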