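import Pool.Agent.U221.TK.Near

/-!
# The abc conjecture for a thin set of points over a number field
-/

set_option autoImplicit false
set_option linter.unusedSectionVars false

namespace Pool.Agent.U221.TK

open NumberField IsDedekindDomain Polynomial Finset Pool.Agent.H691R3

variable {K : Type} [Field K] [NumberField K]

theorem belyi_g : Belyi (C 4 * X * (1 - X) : K[X]) 1 2 where
  pos := by norm_num
  cop := isCoprime_one_right
  degA := by compute_degree
  degB := by rw [natDegree_one]; norm_num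
  max := Or.inl (by compute_degree!)
  zeros := by
    refine ⟨C 2 * X - 1, 2, ?_, ?_, C (1 / 4) * X * (X - 1), ?_⟩
    · intro h
      have := congrArg (Polynomial.eval 0) h
      simp at this
    · have : (C 2 * X - 1 : K[X]).natDegree ≤ 1 := by compute_degree
      omega
    · have e1 : (C 2 : K[X]) = 2 := map_ofNat C 2
      have e2 : (C 4 : K[X]) = 4 := map_ofNat C 4
      have e3 : (4 : K[X]) * C (1 / 4) = 1 := by
        rw [← e2, ← C_mul]
        norm_num
      rw [e1, e2]
      linear_combination (-(X ^ 2 * (X - 1) ^ 2 * (2 * X - 1) ^ 2) : K[X]) * e3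

theorem belyi_k : Belyi (C 4 * X : K[X]) ((1 + X) ^ 2) 2 where
  pos := by norm_num
  cop := by
    refine ⟨-(C (1 / 4) * (X + 2)), 1, ?_⟩
    have e2 : (C 4 : K[X]) = 4 := map_ofNat C 4
    have e3 : (4 : K[X]) * C (1 / 4) = 1 := by
      rw [← e2, ← C_mul]
      norm_num
    rw [e2]
    linear_combination (-(X * (X + 2)) : K[X]) * e3
  degA := by
    have : (C 4 * X : K[X]).natDegree ≤ 1 := by compute_degree
    omega
  degB := by compute_degree
  max := Or.inr (by compute_degree!)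
  zeros := by
    refine ⟨X + 1, 2, ?_, ?_, -(C (1 / 4) * X), ?_⟩
    · intro h
      have := congrArg (Polynomial.eval 0) h
      simp at this
    · have : (X + 1 : K[X]).natDegree ≤ 1 := by compute_degree
      omega
    · have e2 : (C 4 : K[X]) = 4 := map_ofNat C 4
      have e3 : (4 : K[X]) * C (1 / 4) = 1 := by
        rw [← e2, ← C_mul]
        norm_num
      rw [e2]
      linear_combination (-(X ^ 2 * (X - 1) ^ 2 * (X + 1) ^ 2) : K[X]) * e3

/-- the map which sends all cusps to `0` -/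
noncomputable def Q (x : K) : K := 4 * (4 * x * (1 - x)) / (1 + 4 * x * (1 - x)) ^ 2

theorem good_Q : Good (Q : K → K) 4 := by
  have h1 := good_of_belyi (K := K) belyi_g
  have h2 := good_of_belyi (K := K) belyi_k
  have h3 := good_comp h1 h2
  have e : (fun x : K => eval (eval x (C 4 * X * (1 - X)) / eval x 1) (C 4 * X) /
      eval (eval x (C 4 * X * (1 - X)) / eval x 1) ((1 + X) ^ 2)) = Q := by
    funext x
    simp [Q]
  rw [← e]
  exact h3

theorem merge (v : AbsoluteValue K ℝ) {ε : ℝ} (hε : 0 < ε) :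
    ∃ ε' : ℝ, 0 < ε' ∧ ∀ x, near v ε' x → v (Q x) < ε := by
  have h4 : 0 < v 4 := v.pos (by norm_num)
  have h4' : v 4 ≤ 4 := by
    have e : (4 : K) = 1 + 1 + 1 + 1 := by norm_num
    rw [e]
    have a1 := v.add_le (1 + 1 + 1 : K) 1
    have a2 := v.add_le (1 + 1 : K) 1
    have a3 := v.add_le (1 : K) 1
    rw [v.map_one] at a1 a2 a3
    linarith
  obtain ⟨η, hη⟩ : ∃ η, η = min (1 / 2) (ε / 16) := ⟨_, rfl⟩
  have hη0 : 0 < η := by rw [hη]; positivity
  have hη1 : η ≤ 1 / 2 := by rw [hη]; exact min_le_left _ _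
  have hη2 : 16 * η ≤ ε := by
    have : η ≤ ε / 16 := by rw [hη]; exact min_le_right _ _
    linarith
  -- the second map
  have hk : ∀ w : K, (v w < η ∨ 1 < η * v w) → v (4 * w / (1 + w) ^ 2) < ε := by
    intro w hw
    rw [map_div₀, map_mul, map_pow]
    have hlow : v w - 1 ≤ v (1 + w) ∧ 1 - v w ≤ v (1 + w) := by
      have b1 := v.add_le (1 + w) (-1)
      have b2 := v.add_le (1 + w) (-w)
      rw [v.map_neg, v.map_one, show 1 + w + -1 = w by ring] at b1
      rw [v.map_neg, show 1 + w + -w = 1 by ring, v.map_one] at b2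
      constructor <;> linarith
    have nw := v.nonneg w
    rcases hw with hw | hw
    · have h5 : 1 / 2 ≤ v (1 + w) := by linarith [hlow.2]
      have h6 : 1 / 4 ≤ v (1 + w) ^ 2 := by nlinarith
      rw [div_lt_iff₀ (by linarith)]
      nlinarith
    · have h5 : 2 ≤ v w := by nlinarith
      have h6 : v w / 2 ≤ v (1 + w) := by linarith [hlow.1]
      have h7 : v w ^ 2 / 4 ≤ v (1 + w) ^ 2 := by nlinarith
      rw [div_lt_iff₀ (by nlinarith)]
      have h8 : 16 < ε * v w := by nlinarith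
      have h9 : 4 * v w < ε * (v w ^ 2 / 4) := by nlinarith
      nlinarith
  obtain ⟨ε', he'⟩ : ∃ ε' : ℝ, ε' = min (1 / 2) (min (η / 12) (η * v 4)) := ⟨_, rfl⟩
  have he0 : 0 < ε' := by rw [he']; positivity
  have he1 : ε' ≤ 1 / 2 := by rw [he']; exact min_le_left _ _
  have he2 : 12 * ε' ≤ η := by
    have : ε' ≤ η / 12 := by rw [he']; exact (min_le_right _ _).trans (min_le_left _ _)
    linarith
  have he3 : ε' ≤ η * v 4 := by rw [he']; exact (min_le_right _ _).trans (min_le_right _ _)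
  refine ⟨ε', he0, fun x hx => hk _ ?_⟩
  rw [map_mul, map_mul]
  have nx := v.nonneg x
  have nx1 := v.nonneg (1 - x)
  have t1 : v (1 - x) ≤ 1 + v x := by
    have := v.add_le 1 (-x)
    rw [v.map_neg, v.map_one, ← sub_eq_add_neg] at this
    exact this
  have t2 : v x ≤ 1 + v (1 - x) := by
    have := v.add_le (-(1 - x)) 1
    rw [v.map_neg, v.map_one, show -(1 - x) + 1 = x by ring] at this
    linarith
  rcases hx with hx | hx | hx
  · left
    have h5 : v 4 * v x ≤ 4 * ε' := by nlinarith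
    have h6 : v (1 - x) ≤ 2 := by linarith
    have h7 : 0 ≤ v 4 * v x := by positivity
    nlinarith
  · left
    have hx' : v (1 - x) < ε' := by rw [v_sub_comm]; exact hx
    have h5 : v 4 * v x ≤ 4 * 2 := by nlinarith
    nlinarith
  · right
    have h5 : 2 ≤ v x := by nlinarith
    have h6 : 1 ≤ v (1 - x) := by linarith
    have h7 : 1 < η * v 4 * v x := hx.trans_le (mul_le_mul_of_nonneg_right he3 nx)
    have h8 : η * v 4 * v x ≤ η * (v 4 * v x * v (1 - x)) := by
      have : 0 ≤ η * v 4 * v x := by positivity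
      nlinarith
    linarith

/-- choice of the exponent -/
theorem window (Y : ℕ → ℝ) (hpos : ∀ i, 0 < Y i) (hYt : Filter.Tendsto Y Filter.atTop Filter.atTop) (r : ℝ)
    (hYr : ∀ i, Y (i + 1) ≤ r * Y i) {δ : ℝ} (hδ : 0 < δ) {c : ℝ} (hc : 0 ≤ c) :
    ∃ (T0 : ℝ) (M1 : ℕ), ∀ t : ℝ, T0 ≤ t → ∃ i m : ℕ, 1 ≤ m ∧ m ≤ M1 ∧
      ∀ h : ℝ, |h - m * t| ≤ c → Y i ≤ h ∧ h ≤ (1 + δ) * Y i := by
  classical
  obtain ⟨M0, hM0⟩ : ∃ M0 : ℝ, M0 = 4 / δ + 1 := ⟨_, rfl⟩
  have hM0p : 1 ≤ M0 := by rw [hM0]; have : 0 < 4 / δ := by positivity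
                           linarith
  have hM0δ : 4 ≤ δ * M0 := by
    rw [hM0, mul_add, mul_div_cancel₀ _ hδ.ne']
    linarith
  have hr : 0 < r := by
    by_contra hcon
    push Not at hcon
    have := hYr 0
    nlinarith [hpos 0, hpos 1]
  refine ⟨Y 0 + c + 1, ⌈r * M0 + 2⌉₊, fun t ht => ?_⟩
  have hY0 := hpos 0
  have ht1 : 1 < t := by linarith
  have hex : ∃ i, M0 * t ≤ Y i := (hYt.eventually_ge_atTop (M0 * t)).exists
  set i := Nat.find hex with hi
  have hiY : M0 * t ≤ Y i := Nat.find_spec hex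
  have hi0 : i ≠ 0 := by
    intro h0
    rw [h0] at hiY
    nlinarith
  obtain ⟨j, hj⟩ := Nat.exists_eq_succ_of_ne_zero hi0
  have hjlt : Y j < M0 * t := by
    by_contra hcon
    push Not at hcon
    have := Nat.find_min' hex hcon
    omega
  have hiYu : Y i ≤ r * (M0 * t) := by
    rw [hj]
    exact (hYr j).trans (mul_le_mul_of_nonneg_left hjlt.le hr.le)
  obtain ⟨m, hm⟩ : ∃ m, m = ⌈(Y i + c) / t⌉₊ := ⟨_, rfl⟩
  have hYi := hpos i
  have hq : 0 < (Y i + c) / t := by positivity
  have hm1 : (Y i + c) / t ≤ m := by rw [hm]; exact Nat.le_ceil _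
  have hm2 : (m : ℝ) < (Y i + c) / t + 1 := by rw [hm]; exact Nat.ceil_lt_add_one hq.le
  have hm3 : Y i + c ≤ m * t := by rwa [div_le_iff₀ (by linarith)] at hm1
  have hm4 : (m : ℝ) * t < Y i + c + t := by
    have := mul_lt_mul_of_pos_right hm2 (by linarith : (0 : ℝ) < t)
    rw [add_mul, div_mul_cancel₀ _ (by linarith : t ≠ 0), one_mul] at this
    exact this
  refine ⟨i, m, ?_, ?_, fun h hh => ?_⟩
  · rw [hm, Nat.one_le_ceil_iff]; exact hq
  · have h1 : (Y i + c) / t ≤ r * M0 + 1 := by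
      rw [div_le_iff₀ (by linarith)]
      nlinarith
    have h2 : (m : ℝ) ≤ ⌈r * M0 + 2⌉₊ := by
      refine le_trans ?_ (Nat.le_ceil _)
      linarith
    exact_mod_cast h2
  · rw [abs_le] at hh
    constructor
    · linarith [hh.1]
    · have h1 : 4 * t ≤ δ * Y i := by
        calc 4 * t ≤ δ * M0 * t := mul_le_mul_of_nonneg_right hM0δ (by linarith)
          _ = δ * (M0 * t) := by ring
          _ ≤ δ * Y i := mul_le_mul_of_nonneg_left hiY hδ.le
      nlinarith [hh.2]

end Pool.Agent.U221.TK
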