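import Pool.Agent.U221.TK.Ht
import Pool.Agent.H691R3.PlaceK

/-!
# Moving a point close to the cusps at finitely many places
-/

set_option autoImplicit false
set_option linter.unusedSectionVars false

namespace Pool.Agent.U221.TK

open NumberField IsDedekindDomain Polynomial Finset Pool.Agent.H691R3

variable {K : Type} [Field K] [NumberField K]

/-- `x` is close to `0`, `1` or `∞` -/
def near (v : AbsoluteValue K ℝ) (ε : ℝ) (x : K) : Prop := v x < ε ∨ v (x - 1) < ε ∨ 1 < ε * v x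

theorem near_mono {v : AbsoluteValue K ℝ} {ε ε' : ℝ} (h : ε ≤ ε') {x : K} (hx : near v ε x) : near v ε' x := by
  rcases hx with hx | hx | hx
  · exact Or.inl (hx.trans_le h)
  · exact Or.inr (Or.inl (hx.trans_le h))
  · exact Or.inr (Or.inr (hx.trans_le (mul_le_mul_of_nonneg_right h (v.nonneg x))))

/-- the map preserves closeness to the cusps -/
def Cont (v : AbsoluteValue K ℝ) (f : K → K) : Prop :=
  ∀ ε : ℝ, 0 < ε → ∃ ε' : ℝ, 0 < ε' ∧ ∀ x, near v ε' x → near v ε (f x)

theorem cont_id (v : AbsoluteValue K ℝ) : Cont v (fun x : K => x) := fun ε hε => ⟨ε, hε, fun _ h => h⟩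

theorem cont_comp {v : AbsoluteValue K ℝ} {f g : K → K} (hf : Cont v f) (hg : Cont v g) :
    Cont v (fun x => g (f x)) := by
  intro ε hε
  obtain ⟨ε1, h1, h2⟩ := hg ε hε
  obtain ⟨ε2, h3, h4⟩ := hf ε1 h1
  exact ⟨ε2, h3, fun x hx => h2 _ (h4 x hx)⟩

theorem v_sub_comm (v : AbsoluteValue K ℝ) (x y : K) : v (x - y) = v (y - x) := v.map_sub x y

theorem cont_sub (v : AbsoluteValue K ℝ) : Cont v (fun x : K => 1 - x) := by
  intro ε hε
  refine ⟨ε / (1 + ε), by positivity, fun x hx => ?_⟩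
  have hle : ε / (1 + ε) ≤ ε := div_le_self hε.le (by linarith)
  rcases hx with hx | hx | hx
  · refine Or.inr (Or.inl ?_)
    have e : 1 - x - 1 = -x := by ring
    rw [e, v.map_neg]
    exact hx.trans_le hle
  · refine Or.inl ?_
    rw [v_sub_comm]
    exact hx.trans_le hle
  · refine Or.inr (Or.inr ?_)
    have h1 : v x - 1 ≤ v (1 - x) := by
      have := v.le_sub x 1
      rw [v.map_one, v_sub_comm] at this
      exact this
    have h2 : (1 + ε) < ε * v x := by
      rw [div_mul_eq_mul_div, lt_div_iff₀ (by linarith)] at hx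
      linarith
    nlinarith

theorem pow_sub_one_le (v : AbsoluteValue K ℝ) (x : K) (m : ℕ) (hx : v x ≤ 2) :
    v (x ^ m - 1) ≤ v (x - 1) * (m * 2 ^ m) := by
  have e : x ^ m - 1 = (∑ i ∈ range m, x ^ i) * (x - 1) := (geom_sum_mul x m).symm
  rw [e, map_mul, mul_comm]
  refine mul_le_mul_of_nonneg_left ?_ (v.nonneg _)
  refine (v.sum_le _ _).trans ?_
  calc ∑ i ∈ range m, v (x ^ i) ≤ ∑ i ∈ range m, (2 : ℝ) ^ m := by
        refine sum_le_sum fun i hi => ?_
        rw [mem_range] at hi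
        rw [map_pow]
        exact (pow_le_pow_left₀ (v.nonneg x) hx i).trans (pow_le_pow_right₀ (by norm_num) hi.le)
    _ = m * 2 ^ m := by rw [sum_const, card_range, nsmul_eq_mul]

theorem cont_pow (v : AbsoluteValue K ℝ) {m : ℕ} (hm : 1 ≤ m) : Cont v (fun x : K => x ^ m) := by
  intro ε hε
  have hm' : (1 : ℝ) ≤ m := by exact_mod_cast hm
  have hM : (0 : ℝ) < m * 2 ^ m := by positivity
  refine ⟨min 1 (min ε (ε / (m * 2 ^ m))), by positivity, fun x hx => ?_⟩
  set δ := min 1 (min ε (ε / (m * 2 ^ m))) with hδ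
  have d1 : δ ≤ 1 := min_le_left _ _
  have d2 : δ ≤ ε := (min_le_right _ _).trans (min_le_left _ _)
  have d3 : δ ≤ ε / (m * 2 ^ m) := (min_le_right _ _).trans (min_le_right _ _)
  have hδ0 : 0 < δ := by positivity
  rcases hx with hx | hx | hx
  · refine Or.inl ?_
    rw [map_pow]
    calc v x ^ m ≤ v x ^ 1 := pow_le_pow_of_le_one (v.nonneg x) (hx.le.trans d1) hm
      _ = v x := pow_one _
      _ < ε := hx.trans_le d2
  · refine Or.inr (Or.inl ?_)
    have h2 : v x ≤ 2 := by
      have : v x ≤ v (x - 1) + v 1 := by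
        have := v.add_le (x - 1) 1
        rwa [sub_add_cancel] at this
      rw [v.map_one] at this
      linarith
    refine (pow_sub_one_le v x m h2).trans_lt ?_
    have := mul_lt_mul_of_pos_right (hx.trans_le d3) hM
    rwa [div_mul_cancel₀ _ hM.ne'] at this
  · refine Or.inr (Or.inr ?_)
    have h1 : 1 ≤ v x := by nlinarith [v.nonneg x]
    rw [map_pow]
    calc (1 : ℝ) < δ * v x := hx
      _ ≤ ε * v x := mul_le_mul_of_nonneg_right d2 (v.nonneg x)
      _ = ε * v x ^ 1 := by rw [pow_one]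
      _ ≤ ε * v x ^ m := mul_le_mul_of_nonneg_left (pow_le_pow_right₀ h1 hm) hε.le

/-- maps which change heights and radicals like Belyi maps and preserve closeness to the cusps at all places -/
def Word (f : K → K) (n : ℕ) : Prop := Good f n ∧ ∀ v : AbsoluteValue K ℝ, Cont v f

theorem word_comp {f g : K → K} {m n : ℕ} (hf : Word f m) (hg : Word g n) : Word (fun x => g (f x)) (n * m) :=
  ⟨good_comp hf.1 hg.1, fun v => cont_comp (hf.2 v) (hg.2 v)⟩

theorem word_id : Word (fun x : K => x) 1 := ⟨good_id, fun v => cont_id v⟩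

theorem belyi_sub : Belyi (1 - X : K[X]) 1 1 where
  pos := le_rfl
  cop := isCoprime_one_right
  degA := by
    refine (natDegree_sub_le _ _).trans ?_
    rw [natDegree_one, natDegree_X]
    norm_num
  degB := by rw [natDegree_one]; norm_num
  max := Or.inl (by
    have : (1 - X : K[X]) = -(X - C 1) := by rw [C_1]; ring
    rw [this, natDegree_neg, natDegree_X_sub_C])
  zeros := ⟨1, 1, one_ne_zero, by rw [natDegree_one], ⟨1, by ring⟩⟩

theorem belyi_pow {m : ℕ} (hm : 1 ≤ m) : Belyi (X ^ m : K[X]) 1 m where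
  pos := hm
  cop := isCoprime_one_right
  degA := by rw [natDegree_X_pow]
  degB := by rw [natDegree_one]; omega
  max := Or.inl (natDegree_X_pow m)
  zeros := by
    refine ⟨∑ i ∈ range m, X ^ i, m, ?_, ?_, ?_⟩
    · intro h
      have := congrArg (Polynomial.eval 1) h
      rw [eval_finsetSum] at this
      simp only [eval_pow, eval_X, one_pow, sum_const, card_range, nsmul_eq_mul, mul_one, eval_zero] at this
      exact (by omega : m ≠ 0) (by exact_mod_cast this)
    · have h1 : (∑ i ∈ range m, (X : K[X]) ^ i).natDegree ≤ m - 1 := by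
        refine natDegree_sum_le_of_forall_le _ _ fun i hi => ?_
        rw [mem_range] at hi
        rw [natDegree_X_pow]
        omega
      omega
    · have e : (X : K[X]) ^ m * 1 * (X ^ m - 1) = X ^ m * ((X - 1) * ∑ i ∈ range m, X ^ i) := by
        rw [mul_one, mul_geom_sum]
      rw [e, mul_assoc, mul_pow]
      refine mul_dvd_mul_left _ ?_
      exact dvd_pow_self _ (by omega)

theorem word_sub : Word (fun x : K => 1 - x) 1 := by
  refine ⟨?_, fun v => cont_sub v⟩
  have h := good_of_belyi (K := K) belyi_sub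
  simpa using h

theorem word_pow {m : ℕ} (hm : 1 ≤ m) : Word (fun x : K => x ^ m) m := by
  refine ⟨?_, fun v => cont_pow v hm⟩
  have h := good_of_belyi (K := K) (belyi_pow hm)
  simpa using h

/-- one of finitely many words moves a point close to a cusp -/
def Single (v : AbsoluteValue K ℝ) : Prop := ∀ ε : ℝ, 0 < ε → ∃ L : Finset ((K → K) × ℕ),
  (∀ p ∈ L, Word p.1 p.2) ∧ ∀ x, ∃ p ∈ L, near v ε (p.1 x)

theorem pow_near {v : AbsoluteValue K ℝ} {ε : ℝ} {m : ℕ} (h1 : (9 / 10 : ℝ) ^ m < ε)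
    (h2 : 1 < ε * (11 / 10 : ℝ) ^ m) (hε : 0 < ε) {y : K} (hy : v y ≤ 9 / 10 ∨ 11 / 10 ≤ v y) :
    near v ε (y ^ m) := by
  rcases hy with hy | hy
  · refine Or.inl ?_
    rw [map_pow]
    exact (pow_le_pow_left₀ (v.nonneg y) hy m).trans_lt h1
  · refine Or.inr (Or.inr ?_)
    rw [map_pow]
    exact h2.trans_le (mul_le_mul_of_nonneg_left (pow_le_pow_left₀ (by norm_num) hy m) hε.le)

theorem single_arch (w : InfinitePlace K) : Single w.1 := by
  classical
  intro ε hε
  obtain ⟨m1, h1⟩ := exists_pow_lt_of_lt_one hε (by norm_num : (9 / 10 : ℝ) < 1)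
  obtain ⟨m2, h2⟩ := pow_unbounded_of_one_lt (1 / ε) (by norm_num : (1 : ℝ) < 11 / 10)
  obtain ⟨m, hm⟩ : ∃ m, m = m1 + m2 + 1 := ⟨_, rfl⟩
  have hm1 : (9 / 10 : ℝ) ^ m < ε :=
    (pow_le_pow_of_le_one (by norm_num) (by norm_num) (by omega : m1 ≤ m)).trans_lt h1
  have hm2 : 1 < ε * (11 / 10 : ℝ) ^ m := by
    have h3 : 1 / ε < (11 / 10 : ℝ) ^ m :=
      h2.trans_le (pow_le_pow_right₀ (by norm_num) (by omega : m2 ≤ m))
    rw [div_lt_iff₀ hε] at h3
    linarith
  have hmp : 1 ≤ m := by omega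
  refine ⟨{((fun x : K => x ^ m), m), ((fun x : K => (1 - x) ^ m), m * 1),
    ((fun x : K => (1 - x ^ 2) ^ m), m * (1 * 2))}, ?_, ?_⟩
  · intro p hp
    simp only [mem_insert, mem_singleton] at hp
    rcases hp with rfl | rfl | rfl
    · exact word_pow hmp
    · exact word_comp (f := fun x : K => 1 - x) (g := fun y : K => y ^ m) word_sub (word_pow hmp)
    · exact word_comp (f := fun x : K => 1 - x ^ 2) (g := fun y : K => y ^ m)
        (word_comp (f := fun x : K => x ^ 2) (g := fun y : K => 1 - y) (word_pow (by norm_num)) word_sub)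
        (word_pow hmp)
  · intro x
    by_cases c1 : w x ≤ 9 / 10 ∨ 11 / 10 ≤ w x
    · exact ⟨((fun x : K => x ^ m), m), by simp, pow_near (v := w.1) hm1 hm2 hε c1⟩
    by_cases c2 : w (1 - x) ≤ 9 / 10 ∨ 11 / 10 ≤ w (1 - x)
    · exact ⟨((fun x : K => (1 - x) ^ m), m * 1), by simp, pow_near (v := w.1) hm1 hm2 hε c2⟩
    · refine ⟨((fun x : K => (1 - x ^ 2) ^ m), m * (1 * 2)), by simp, pow_near (v := w.1) hm1 hm2 hε (Or.inr ?_)⟩
      push Not at c1 c2
      have hpar : w (1 + x) ^ 2 + w (1 - x) ^ 2 = 2 * (1 + w x ^ 2) := by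
        have h := parallelogram_law_with_norm ℝ (1 : ℂ) (w.embedding x)
        rw [← map_one w.embedding, ← map_add, ← map_sub, InfinitePlace.norm_embedding_eq,
          InfinitePlace.norm_embedding_eq, InfinitePlace.norm_embedding_eq, InfinitePlace.norm_embedding_eq,
          map_one] at h
        nlinarith
      have e : w.1 (1 - x ^ 2) = w (1 - x) * w (1 + x) := by
        rw [← map_mul]
        change w (1 - x ^ 2) = _
        congr 1
        ring
      rw [e]
      have n1 := apply_nonneg w (1 + x)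
      have n2 := apply_nonneg w x
      have h3 : (3 / 2 : ℝ) ^ 2 ≤ w (1 + x) ^ 2 := by nlinarith [c1.1, c1.2, c2.1, c2.2]
      have h4 : (3 / 2 : ℝ) ≤ w (1 + x) := le_of_sq_le_sq h3 n1
      nlinarith [c2.1]

theorem na_pow_sub (v : HeightOneSpectrum (𝓞 K)) {y : K} (hy : fv v y = 1) (k : ℕ) :
    fv v (y ^ k - 1) ≤ fv v (y - 1) := by
  have e : y ^ k - 1 = (∑ i ∈ range k, y ^ i) * (y - 1) := (geom_sum_mul y k).symm
  rw [e, map_mul]
  refine mul_le_of_le_one_left ((fv v).nonneg _) ?_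
  refine na_sum v _ _ _ zero_le_one fun i _ => ?_
  rw [map_pow, hy, one_pow]

theorem single_fin (v : HeightOneSpectrum (𝓞 K)) : Single (fv v : AbsoluteValue K ℝ) := by
  classical
  intro ε hε
  obtain ⟨N, c, hc⟩ := tb_place (K := K) (Sum.inr v) (ε / 2) (by positivity)
  have hN1 := one_lt_Nv v
  obtain ⟨t, ht⟩ := pow_unbounded_of_one_lt (1 / ε) hN1
  obtain ⟨m, hm⟩ : ∃ m, m = N.factorial * (t + 1) := ⟨_, rfl⟩
  have hfac := Nat.factorial_pos N
  have hmt : t ≤ m := by
    rw [hm]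
    nlinarith
  have hmp : 1 ≤ m := by rw [hm]; exact Nat.mul_pos hfac (by omega)
  have hmN : 1 / ε < Nv v ^ m := ht.trans_le (pow_le_pow_right₀ hN1.le hmt)
  refine ⟨{((fun x : K => x ^ m), m)}, ?_, fun x => ⟨_, mem_singleton_self _, ?_⟩⟩
  · intro p hp
    rw [mem_singleton] at hp
    subst hp
    exact word_pow hmp
  change near (fv v) ε (x ^ m)
  have hbig : ∀ y : K, y ≠ 0 → fv v y < 1 → Nv v * fv v y ≤ 1 := by
    intro y hy0 hy
    have h1 := log_le_of_lt v hy0 hy
    have hpos := (fv v).pos hy0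
    have h2 : Real.log (Nv v * fv v y) ≤ 0 := by
      rw [Real.log_mul (by linarith) hpos.ne']
      linarith
    by_contra hcon
    push Not at hcon
    exact absurd (Real.log_pos hcon) (not_lt.2 h2)
  rcases lt_trichotomy (fv v x) 1 with hx | hx | hx
  · refine Or.inl ?_
    by_cases hx0 : x = 0
    · rw [hx0, zero_pow (by omega), map_zero]
      exact hε
    · have h1 := hbig x hx0 hx
      rw [map_pow]
      have h2 : (Nv v * fv v x) ^ m ≤ 1 := pow_le_one₀ (mul_nonneg (by linarith) ((fv v).nonneg _)) h1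
      rw [mul_pow] at h2
      rw [div_lt_iff₀ hε] at hmN
      have h3 : 0 ≤ fv v x ^ m := pow_nonneg ((fv v).nonneg _) m
      have h5 : 0 < fv v x ^ m := pow_pos ((fv v).pos hx0) m
      nlinarith
  · refine Or.inr (Or.inl ?_)
    -- pigeonhole
    have hpow : ∀ i, fv v (x ^ i) = 1 := fun i => by rw [map_pow, hx, one_pow]
    obtain ⟨i, j, hij, hcij⟩ : ∃ i j : Fin (N + 1), i ≠ j ∧ c (x ^ (i : ℕ)) = c (x ^ (j : ℕ)) := by
      have := Fintype.exists_ne_map_eq_of_card_lt (fun i : Fin (N + 1) => c (x ^ (i : ℕ))) (by simp)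
      exact this
    have main : ∀ i j : ℕ, i < j → j ≤ N → c (x ^ i) = c (x ^ j) → fv v (x ^ m - 1) < ε := by
      intro i j hlt hjN hcc
      have h1 : fv v (x ^ i - x ^ j) ≤ ε / 2 :=
        hc (x ^ i) (x ^ j) (by
          change fv v (x ^ i) ≤ 2
          rw [hpow]; norm_num) (by
          change fv v (x ^ j) ≤ 2
          rw [hpow]; norm_num) hcc
      obtain ⟨d, rfl⟩ := Nat.exists_eq_add_of_lt hlt
      have h2 : fv v (x ^ (d + 1) - 1) ≤ ε / 2 := by
        have e : x ^ i - x ^ (i + d + 1) = -(x ^ i * (x ^ (d + 1) - 1)) := by ring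
        rw [e, (fv v).map_neg, map_mul, hpow, one_mul] at h1
        exact h1
      have hdvd : (d + 1) ∣ m := by
        rw [hm]
        exact Dvd.dvd.mul_right (Nat.dvd_factorial (by omega) (by omega)) _
      obtain ⟨k, hk⟩ := hdvd
      rw [hk, pow_mul]
      refine (na_pow_sub v (hpow (d + 1)) k).trans_lt ?_
      linarith
    rcases lt_or_gt_of_ne (fun h => hij (Fin.ext h) : (i : ℕ) ≠ (j : ℕ)) with h | h
    · exact main i j h (by omega) hcij
    · exact main j i h (by omega) hcij.symm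
  · refine Or.inr (Or.inr ?_)
    have hx0 : x ≠ 0 := by
      rintro rfl
      rw [map_zero] at hx
      linarith
    have h1 := hbig x⁻¹ (inv_ne_zero hx0) (by rw [map_inv₀]; exact inv_lt_one_of_one_lt₀ hx)
    rw [map_inv₀, ← div_eq_mul_inv, div_le_one ((fv v).pos hx0)] at h1
    rw [map_pow]
    have h2 : Nv v ^ m ≤ fv v x ^ m := pow_le_pow_left₀ (by linarith) h1 m
    rw [div_lt_iff₀ hε] at hmN
    nlinarith

/-- **finitely many places at once** -/
theorem multi (l : Finset (AbsoluteValue K ℝ)) : (∀ v ∈ l, Single v) → ∀ ε : ℝ, 0 < ε →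
    ∃ L : Finset ((K → K) × ℕ), (∀ p ∈ L, Word p.1 p.2) ∧ ∀ x, ∃ p ∈ L, ∀ v ∈ l, near v ε (p.1 x) := by
  classical
  induction l using Finset.induction_on with
  | empty =>
    intro _ ε _
    refine ⟨{((fun x : K => x), 1)}, ?_, fun x => ⟨_, mem_singleton_self _, fun v hv => absurd hv (notMem_empty v)⟩⟩
    intro p hp
    rw [mem_singleton] at hp
    subst hp
    exact word_id
  | insert v l hv ih =>
    intro hs ε hε
    obtain ⟨L1, h1, h2⟩ := hs v (mem_insert_self _ _) ε hε
    have hcom : ∃ ε' : ℝ, 0 < ε' ∧ ∀ p ∈ L1, ∀ u ∈ l, ∀ x, near u ε' x → near u ε (p.1 x) := by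
      have hall : ∀ p ∈ L1, ∀ u ∈ l, ∀ᶠ ε' in nhdsWithin (0 : ℝ) (Set.Ioi 0), ∀ x, near u ε' x → near u ε (p.1 x) := by
        intro p hp u _
        obtain ⟨e, he, hE⟩ := (h1 p hp).2 u ε hε
        filter_upwards [Ioo_mem_nhdsGT he] with e' he' x hx
        exact hE x (near_mono he'.2.le hx)
      have h3 : ∀ᶠ ε' in nhdsWithin (0 : ℝ) (Set.Ioi 0), ∀ p ∈ L1, ∀ u ∈ l, ∀ x, near u ε' x → near u ε (p.1 x) := by
        rw [Filter.eventually_all_finset]
        intro p hp
        rw [Filter.eventually_all_finset]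
        intro u hu
        exact hall p hp u hu
      obtain ⟨e, he1, he2⟩ := (h3.and self_mem_nhdsWithin).exists
      exact ⟨e, he2, he1⟩
    obtain ⟨ε', hε', hE⟩ := hcom
    obtain ⟨L2, h3, h4⟩ := ih (fun u hu => hs u (mem_insert_of_mem hu)) ε' hε'
    refine ⟨(L1 ×ˢ L2).image fun q => ((fun x => q.1.1 (q.2.1 x)), q.1.2 * q.2.2), ?_, fun x => ?_⟩
    · intro p hp
      rw [mem_image] at hp
      obtain ⟨q, hq, rfl⟩ := hp
      rw [mem_product] at hq
      exact word_comp (f := q.2.1) (g := q.1.1) (h3 _ hq.2) (h1 _ hq.1)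
    · obtain ⟨r, hr, hr2⟩ := h4 x
      obtain ⟨p, hp, hp2⟩ := h2 (r.1 x)
      refine ⟨_, mem_image_of_mem _ (mem_product.2 ⟨hp, hr⟩ : (p, r) ∈ L1 ×ˢ L2), fun u hu => ?_⟩
      rw [mem_insert] at hu
      rcases hu with rfl | hu
      · exact hp2
      · exact hE p hp u hu _ (hr2 u hu)

end Pool.Agent.U221.TK
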