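import Pool.Agent.U221.TK.Core
import Pool.Agent.R425.MK.Cnt

/-!
# Points of the line `a + b + c = 0`
-/

set_option autoImplicit false
set_option linter.unusedSectionVars false

namespace Pool.Agent.U221.TK

open NumberField IsDedekindDomain Polynomial Finset Pool.Agent.H691R3 Pool.Agent.W223.AK

variable {K : Type} [Field K] [NumberField K]

theorem ht_eq_H (t : K) : ht t = H t := by
  have h1 : ht t = ∑ w : InfinitePlace K, (w.mult : ℝ) * Real.log (max (w t) 1) +
      ∑ᶠ v : HeightOneSpectrum (𝓞 K), Real.log (max (fv v t) 1) := by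
    unfold ht hr
    congr 1
    · refine Finset.sum_congr rfl fun w _ => ?_
      have : max (w (aff t).1) (w (aff t).2) = max (w t) 1 := by
        show max (w t) (w 1) = _
        rw [map_one]
      rw [this]
    · refine finsum_congr fun v => ?_
      have h2 : max (fv v (aff t).1) (fv v (aff t).2) = max (fv v t) 1 := by
        show max (fv v t) (fv v 1) = _
        rw [map_one]
      rw [h2]
  rw [h1, H_eq]
  congr 1
  · refine Finset.sum_congr rfl fun w _ => ?_
    rw [max_comm, log_max_one _ (apply_nonneg w t)]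
  · refine finsum_congr fun v => ?_
    rw [max_comm, log_max_one _ ((fv v).nonneg t)]

/-- the height of a point and of its affine coordinate -/
theorem height_close : ∃ C : ℝ, 0 ≤ C ∧ ∀ P : Fin 3 → K, P 0 + P 1 + P 2 = 0 → P 1 ≠ 0 → P 2 ≠ 0 →
    |H3 P - H (P 0 / (-P 2))| ≤ C := by
  have hc : IsCoprime (X : K[X]) (1 - X) := ⟨1, 1, by ring⟩
  obtain ⟨C1, h1⟩ := ht_map (K := K) (A := X) (B := 1 - X) (n := 1) le_rfl hc natDegree_X_le
    (by
      refine (natDegree_sub_le _ _).trans ?_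
      rw [natDegree_one, natDegree_X]
      norm_num) (Or.inl natDegree_X)
  refine ⟨|C1| + |lossK K|, by positivity, fun P hs hP1 hP2 => ?_⟩
  obtain ⟨g1, g2⟩ := H3_bounds hP1 hs
  rw [ht_eq_H] at g1 g2
  have h2 := h1 (P 0 / (-P 2))
  simp only [eval_X, eval_sub, eval_one] at h2
  have e : P 0 / (-P 2) / (1 - P 0 / (-P 2)) = P 0 / P 1 := by
    have hP1' : P 1 = -P 0 - P 2 := by linear_combination hs
    have hne : -P 0 - P 2 ≠ 0 := by rw [← hP1']; exact hP1
    have hne' : -P 2 - P 0 ≠ 0 := by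
      intro h
      exact hne (by linear_combination h)
    rw [hP1']
    have e2 : 1 - P 0 / (-P 2) = (-P 2 - P 0) / (-P 2) := by
      rw [sub_div, div_self (neg_ne_zero.2 hP2)]
    rw [e2, div_div_div_cancel_right₀ (neg_ne_zero.2 hP2)]
    congr 1
    ring
  rw [e, abs_le] at h2
  have a1 := le_abs_self C1
  have a2 := le_abs_self (lossK K)
  have a3 := abs_nonneg C1
  have a4 := abs_nonneg (lossK K)
  rw [abs_le]
  push_cast at h2
  constructor
  · linarith [h2.1]
  · linarith [h2.2]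

/-- the radical -/
theorem rad_eq {P : Fin 3 → K} (hs : P 0 + P 1 + P 2 = 0) (h2 : P 2 ≠ 0) :
    (∑ᶠ (v : HeightOneSpectrum (𝓞 K)) (_ : ¬ (FinitePlace.mk v (P 0) = FinitePlace.mk v (P 1) ∧
      FinitePlace.mk v (P 1) = FinitePlace.mk v (P 2))), Real.log (Ideal.absNorm v.asIdeal : ℝ)) =
      R (P 0 / (-P 2)) := by
  classical
  unfold R
  refine finsum_congr fun v => ?_
  have hiff : (¬ (FinitePlace.mk v (P 0) = FinitePlace.mk v (P 1) ∧
      FinitePlace.mk v (P 1) = FinitePlace.mk v (P 2))) ↔ Cu v (P 0 / (-P 2)) := by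
    unfold Cu
    rw [not_iff_not]
    change (fv v (P 0) = fv v (P 1) ∧ fv v (P 1) = fv v (P 2)) ↔ _
    have hpos : 0 < fv v (P 2) := (fv v).pos h2
    have e1 : fv v (P 0 / (-P 2)) = fv v (P 0) / fv v (P 2) := by rw [map_div₀, (fv v).map_neg]
    have e2 : fv v (1 - P 0 / (-P 2)) = fv v (P 1) / fv v (P 2) := by
      have : 1 - P 0 / (-P 2) = P 1 / (-P 2) := by
        have hP1' : P 1 = -P 2 - P 0 := by linear_combination hs
        rw [hP1', sub_div, div_self (neg_ne_zero.2 h2)]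
      rw [this, map_div₀, (fv v).map_neg]
    rw [e1, e2, div_eq_one_iff_eq hpos.ne', div_eq_one_iff_eq hpos.ne']
    constructor
    · rintro ⟨a, b⟩
      exact ⟨a.trans b, b⟩
    · rintro ⟨a, b⟩
      exact ⟨a.trans b.symm, b⟩
  rw [finsum_eq_if, finsum_eq_if]
  simp only [hiff, Nv]

open Classical in
/-- the trivial bound for the radical -/
theorem R_le {x : K} (h0 : x ≠ 0) (h1 : x ≠ 1) : R x ≤ 2 * H x + H (1 - x) := by
  have h1' : 1 - x ≠ 0 := sub_ne_zero.2 (Ne.symm h1)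
  have hpart : ∀ u : K, u ≠ 0 → ∀ W : Finset (HeightOneSpectrum (𝓞 K)),
      ∑ v ∈ W, (if fv v u < 1 then Real.log (Nv v) else 0) ≤ H u := by
    intro u hu W
    have e1 : H u = H u⁻¹ := (Height.logHeight₁_inv u).symm
    rw [e1, H_eq]
    have hnn : 0 ≤ ∑ w : InfinitePlace K, (w.mult : ℝ) * Real.posLog (w u⁻¹) :=
      sum_nonneg fun w _ => mul_nonneg (Nat.cast_nonneg _) Real.posLog_nonneg
    set W' : Finset (HeightOneSpectrum (𝓞 K)) := W ∪ (fv_support_finite (inv_ne_zero hu)).toFinset with hW'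
    have e2 : ∑ᶠ v : HeightOneSpectrum (𝓞 K), Real.posLog (fv v u⁻¹) = ∑ v ∈ W', Real.posLog (fv v u⁻¹) := by
      refine finsum_eq_sum_of_support_subset _ ?_
      intro v hv
      rw [Function.mem_support] at hv
      have : fv v u⁻¹ ≠ 1 := by
        intro h
        rw [h, Real.posLog_one] at hv
        exact hv rfl
      rw [hW', coe_union]
      exact Or.inr ((fv_support_finite (inv_ne_zero hu)).mem_toFinset.2 this)
    rw [e2]
    have e3 : ∑ v ∈ W, (if fv v u < 1 then Real.log (Nv v) else 0) ≤ ∑ v ∈ W', Real.posLog (fv v u⁻¹) := by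
      refine le_trans (sum_le_sum fun v _ => ?_)
        (sum_le_sum_of_subset_of_nonneg subset_union_left fun v _ _ => Real.posLog_nonneg)
      split_ifs with h
      · have := log_le_of_lt v hu h
        refine this.trans ?_
        rw [map_inv₀, ← Real.log_inv]
        exact le_max_right _ _
      · exact Real.posLog_nonneg
    linarith
  have hc := cu_finite h0 h1
  rw [R_eq_sum (W := hc.toFinset) fun v hv => hc.mem_toFinset.2 hv]
  have g1 := hpart x h0 hc.toFinset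
  have g2 := hpart x⁻¹ (inv_ne_zero h0) hc.toFinset
  have g3 := hpart (1 - x) h1' hc.toFinset
  have e1 : H x⁻¹ = H x := Height.logHeight₁_inv x
  rw [e1] at g2
  have hle : ∑ v ∈ hc.toFinset, (if Cu v x then Real.log (Nv v) else 0) ≤
      ∑ v ∈ hc.toFinset, (if fv v x < 1 then Real.log (Nv v) else 0) +
      ∑ v ∈ hc.toFinset, (if fv v x⁻¹ < 1 then Real.log (Nv v) else 0) +
      ∑ v ∈ hc.toFinset, (if fv v (1 - x) < 1 then Real.log (Nv v) else 0) := by
    rw [← sum_add_distrib, ← sum_add_distrib]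
    refine sum_le_sum fun v _ => ?_
    have hp := (logNv_pos v).le
    have q1 : 0 ≤ (if fv v x < 1 then Real.log (Nv v) else 0) := by split_ifs <;> linarith
    have q2 : 0 ≤ (if fv v x⁻¹ < 1 then Real.log (Nv v) else 0) := by split_ifs <;> linarith
    have q3 : 0 ≤ (if fv v (1 - x) < 1 then Real.log (Nv v) else 0) := by split_ifs <;> linarith
    by_cases c : Cu v x
    · rw [if_pos c]
      rcases lt_trichotomy (fv v x) 1 with hx | hx | hx
      · rw [if_pos hx] at q1 ⊢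
        linarith
      · have h5 : fv v (1 - x) < 1 := by
          have h6 : fv v (1 - x) ≤ 1 := by
            rw [sub_eq_add_neg]
            refine (fv_na v _ _).trans ?_
            rw [map_one, (fv v).map_neg, hx, max_self]
          refine lt_of_le_of_ne h6 fun h7 => c ⟨hx, h7⟩
        rw [if_pos h5] at q3 ⊢
        linarith
      · have h5 : fv v x⁻¹ < 1 := by rw [map_inv₀]; exact inv_lt_one_of_one_lt₀ hx
        rw [if_pos h5] at q2 ⊢
        linarith
    · rw [if_neg c]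
      linarith
  linarith

theorem R_le3 : ∃ C : ℝ, 0 ≤ C ∧ ∀ x : K, x ≠ 0 → x ≠ 1 → R x ≤ 3 * H x + C := by
  obtain ⟨C1, h1⟩ := ht_map (K := K) (A := 1 - X) (B := 1) (n := 1) le_rfl isCoprime_one_right
    (by
      refine (natDegree_sub_le _ _).trans ?_
      rw [natDegree_one, natDegree_X]
      norm_num) (by rw [natDegree_one]; norm_num) belyi_sub.max
  refine ⟨|C1|, abs_nonneg _, fun x h0 hx1 => ?_⟩
  have h2 := h1 x
  simp only [eval_sub, eval_one, eval_X, div_one] at h2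
  rw [abs_le] at h2
  have := R_le h0 hx1
  have := le_abs_self C1
  push_cast at h2
  linarith [h2.2]

/-- the number of points of bounded height -/
theorem count_all {η : ℝ} (hη : 0 < η) : ∃ C : ℝ, 0 ≤ C ∧ ∀ T : ℝ, 1 ≤ T →
    {x : K | H x ≤ (Module.finrank ℚ K : ℝ) * Real.log T}.Finite ∧
    ({x : K | H x ≤ (Module.finrank ℚ K : ℝ) * Real.log T}.ncard : ℝ) ≤
      C * T ^ ((Module.finrank ℚ K : ℝ) * 2 + η) := by
  classical
  have hd : 0 < (Module.finrank ℚ K : ℝ) := by exact_mod_cast Module.finrank_pos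
  obtain ⟨C1, hC1, h1⟩ := R_le3 (K := K)
  obtain ⟨C2, hC2, h2⟩ := height_close (K := K)
  obtain ⟨C3, h3⟩ := Pool.Agent.R425.MK.count (K := K) ∅ Set.finite_empty (t := 3) (C1 + 3 * C2) (by norm_num) le_rfl hη
  have he : Pool.Agent.R365.AK.eK 3 = 2 := by
    unfold Pool.Agent.R365.AK.eK
    norm_num
  rw [he] at h3
  obtain ⟨E, hE⟩ : ∃ E : ℝ, E = Real.exp (C2 / (Module.finrank ℚ K : ℝ)) := ⟨_, rfl⟩
  have hE1 : 1 ≤ E := by rw [hE]; exact Real.one_le_exp (by positivity)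
  refine ⟨|C3| * E ^ ((Module.finrank ℚ K : ℝ) * 2 + η) + 2, by positivity, fun T hT => ?_⟩
  have hTE : 1 ≤ T * E := by nlinarith
  obtain ⟨g1, g2⟩ := h3 (T * E) hTE
  have hsub : {x : K | H x ≤ (Module.finrank ℚ K : ℝ) * Real.log T} ⊆
      {x : K | x ≠ 0 ∧ x ≠ 1 ∧ H3 (Pool.Agent.R425.MK.pt3 x) / (Module.finrank ℚ K : ℝ) ≤ Real.log (T * E) ∧
        R3 ∅ (Pool.Agent.R425.MK.pt3 x) ≤ 3 * H3 (Pool.Agent.R425.MK.pt3 x) + (C1 + 3 * C2)} ∪ {0, 1} := by
    intro x hx
    simp only [Set.mem_ofPred_eq] at hx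
    by_cases hx0 : x = 0
    · exact Or.inr (Or.inl hx0)
    by_cases hx1 : x = 1
    · exact Or.inr (Or.inr hx1)
    refine Or.inl ⟨hx0, hx1, ?_, ?_⟩
    · have e := h2 (Pool.Agent.R425.MK.pt3 x) (by simp [Pool.Agent.R425.MK.pt3])
        (by simp [Pool.Agent.R425.MK.pt3]; exact sub_ne_zero.2 (Ne.symm hx1)) (by simp [Pool.Agent.R425.MK.pt3])
      have e2 : Pool.Agent.R425.MK.pt3 x 0 / (-Pool.Agent.R425.MK.pt3 x 2) = x := by
        simp [Pool.Agent.R425.MK.pt3]
      rw [e2, abs_le] at e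
      rw [div_le_iff₀ hd, Real.log_mul (by linarith) (by linarith), hE, Real.log_exp, add_mul,
        div_mul_cancel₀ _ hd.ne']
      linarith [e.2]
    · have e := h2 (Pool.Agent.R425.MK.pt3 x) (by simp [Pool.Agent.R425.MK.pt3])
        (by simp [Pool.Agent.R425.MK.pt3]; exact sub_ne_zero.2 (Ne.symm hx1)) (by simp [Pool.Agent.R425.MK.pt3])
      have e2 : Pool.Agent.R425.MK.pt3 x 0 / (-Pool.Agent.R425.MK.pt3 x 2) = x := by
        simp [Pool.Agent.R425.MK.pt3]
      have e3 : R3 ∅ (Pool.Agent.R425.MK.pt3 x) = R x := by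
        have := rad_eq (P := Pool.Agent.R425.MK.pt3 x) (by simp [Pool.Agent.R425.MK.pt3])
          (by simp [Pool.Agent.R425.MK.pt3])
        rw [e2] at this
        rw [← this]
        unfold R3
        simp only [Set.mem_empty_iff_false, not_false_eq_true, true_and]
      rw [e2, abs_le] at e
      rw [e3]
      have := h1 x hx0 hx1
      linarith [e.1]
  have hfin : ({x : K | x ≠ 0 ∧ x ≠ 1 ∧ H3 (Pool.Agent.R425.MK.pt3 x) / (Module.finrank ℚ K : ℝ) ≤ Real.log (T * E) ∧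
        R3 ∅ (Pool.Agent.R425.MK.pt3 x) ≤ 3 * H3 (Pool.Agent.R425.MK.pt3 x) + (C1 + 3 * C2)} ∪ {0, 1}).Finite :=
    g1.union (Set.toFinite _)
  refine ⟨hfin.subset hsub, ?_⟩
  have hcard := Set.ncard_le_ncard hsub hfin
  have hun := Set.ncard_union_le {x : K | x ≠ 0 ∧ x ≠ 1 ∧
    H3 (Pool.Agent.R425.MK.pt3 x) / (Module.finrank ℚ K : ℝ) ≤ Real.log (T * E) ∧
    R3 ∅ (Pool.Agent.R425.MK.pt3 x) ≤ 3 * H3 (Pool.Agent.R425.MK.pt3 x) + (C1 + 3 * C2)} {0, 1}
  have h01 : ({0, 1} : Set K).ncard ≤ 2 := by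
    rw [Set.ncard_pair zero_ne_one]
  have hc' : ({x : K | H x ≤ (Module.finrank ℚ K : ℝ) * Real.log T}.ncard : ℝ) ≤
      ({x : K | x ≠ 0 ∧ x ≠ 1 ∧ H3 (Pool.Agent.R425.MK.pt3 x) / (Module.finrank ℚ K : ℝ) ≤ Real.log (T * E) ∧
        R3 ∅ (Pool.Agent.R425.MK.pt3 x) ≤ 3 * H3 (Pool.Agent.R425.MK.pt3 x) + (C1 + 3 * C2)}.ncard : ℝ) + 2 := by
    exact_mod_cast hcard.trans (hun.trans (Nat.add_le_add_left h01 _))
  refine hc'.trans ?_
  have hexp : 0 ≤ (Module.finrank ℚ K : ℝ) * 2 + η := by positivity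
  have hTp : 1 ≤ T ^ ((Module.finrank ℚ K : ℝ) * 2 + η) := Real.one_le_rpow hT hexp
  have hmul : (T * E) ^ ((Module.finrank ℚ K : ℝ) * 2 + η) =
      T ^ ((Module.finrank ℚ K : ℝ) * 2 + η) * E ^ ((Module.finrank ℚ K : ℝ) * 2 + η) :=
    Real.mul_rpow (by linarith) (by linarith)
  rw [hmul] at g2
  have hEp : 0 ≤ E ^ ((Module.finrank ℚ K : ℝ) * 2 + η) := Real.rpow_nonneg (by linarith) _
  have hle : C3 * (T ^ ((Module.finrank ℚ K : ℝ) * 2 + η) * E ^ ((Module.finrank ℚ K : ℝ) * 2 + η)) ≤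
      |C3| * (T ^ ((Module.finrank ℚ K : ℝ) * 2 + η) * E ^ ((Module.finrank ℚ K : ℝ) * 2 + η)) :=
    mul_le_mul_of_nonneg_right (le_abs_self _) (by positivity)
  have : (|C3| * E ^ ((Module.finrank ℚ K : ℝ) * 2 + η) + 2) * T ^ ((Module.finrank ℚ K : ℝ) * 2 + η) =
      |C3| * (T ^ ((Module.finrank ℚ K : ℝ) * 2 + η) * E ^ ((Module.finrank ℚ K : ℝ) * 2 + η)) +
        2 * T ^ ((Module.finrank ℚ K : ℝ) * 2 + η) := by ring
  rw [this]
  linarith

end Pool.Agent.U221.TK
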